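import Mathlib

set_option autoImplicit false

/-!
# Polynomial equations on a monoid of invertible matrices hold on the group generated by it
-/

namespace Pool.Agent.R477.WA

open MvPolynomial

variable {L : Type} [Field L] {d : ℕ}

/-- evaluation of a polynomial in the entries at a matrix -/
noncomputable def ev (g : Matrix (Fin d) (Fin d) L) :
    MvPolynomial (Fin d × Fin d) L →+* L := MvPolynomial.eval fun p => g p.1 p.2

/-- right multiplication by a matrix -/
noncomputable def tau (γ : Matrix (Fin d) (Fin d) L) :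
    MvPolynomial (Fin d × Fin d) L →ₐ[L] MvPolynomial (Fin d × Fin d) L :=
  MvPolynomial.aeval fun p => ∑ k, X (p.1, k) * C (γ k p.2)

theorem tau_X (γ : Matrix (Fin d) (Fin d) L) (p : Fin d × Fin d) :
    tau γ (X p) = ∑ k, X (p.1, k) * C (γ k p.2) := by
  unfold tau
  rw [aeval_X]

theorem tau_C (γ : Matrix (Fin d) (Fin d) L) (c : L) : tau γ (C c) = C c := (tau γ).commutes c

theorem ev_tau (g γ : Matrix (Fin d) (Fin d) L) (P : MvPolynomial (Fin d × Fin d) L) :
    ev g (tau γ P) = ev (g * γ) P := by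
  have h : ((ev g).comp (tau γ : MvPolynomial (Fin d × Fin d) L →+* _)) = ev (g * γ) := by
    apply MvPolynomial.ringHom_ext
    · intro r
      simp [ev, tau]
    · intro p
      simp [ev, tau, Matrix.mul_apply]
  exact congrArg (fun f => f P) h

theorem tau_mul (a b : Matrix (Fin d) (Fin d) L) (P : MvPolynomial (Fin d × Fin d) L) :
    tau a (tau b P) = tau (a * b) P := by
  have h1 : (tau a).comp (tau b) = tau (a * b) := by
    apply MvPolynomial.algHom_ext
    intro p
    rw [AlgHom.comp_apply, tau_X, tau_X, map_sum]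
    have h2 : ∀ k : Fin d, tau a (X (p.1, k) * C (b k p.2)) =
        ∑ l, X (p.1, l) * C (a l k * b k p.2) := by
      intro k
      rw [map_mul, tau_C, tau_X, Finset.sum_mul]
      refine Finset.sum_congr rfl fun l _ => ?_
      rw [map_mul, mul_assoc]
    rw [Finset.sum_congr rfl (fun k _ => h2 k), Finset.sum_comm]
    refine Finset.sum_congr rfl fun l _ => ?_
    rw [← Finset.mul_sum, ← map_sum, Matrix.mul_apply]
  exact congrArg (fun f => f P) h1

theorem tau_one (P : MvPolynomial (Fin d × Fin d) L) :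
    tau (1 : Matrix (Fin d) (Fin d) L) P = P := by
  have h1 : tau (1 : Matrix (Fin d) (Fin d) L) = AlgHom.id L _ := by
    apply MvPolynomial.algHom_ext
    intro p
    rw [tau_X, AlgHom.id_apply, Finset.sum_eq_single p.2]
    · rw [Matrix.one_apply_eq, map_one, mul_one]
    · intro b _ hb
      rw [Matrix.one_apply_ne hb, map_zero, mul_zero]
    · intro hb
      exact absurd (Finset.mem_univ _) hb
  rw [h1, AlgHom.id_apply]

theorem comap_eq {R : Type} [CommRing R] [IsNoetherianRing R] (f g : R →+* R)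
    (hfg : ∀ x, f (g x) = x) (J : Ideal R) (hJ : J ≤ J.comap f) :
    J.comap f = J := by
  let F : Ideal R → Ideal R := fun I => I.comap f
  have hF : Monotone F := fun I I' h => Ideal.comap_mono h
  have hinj : Function.Injective F := by
    intro I I' h
    have h1 : (F I).comap g = (F I').comap g := by rw [h]
    ext x
    have h2 : ∀ I : Ideal R, x ∈ (F I).comap g ↔ x ∈ I := by
      intro I
      rw [Ideal.mem_comap, Ideal.mem_comap, hfg]
    rw [← h2 I, h1, h2 I']
  have hmono : Monotone fun n : ℕ => F^[n] J := by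
    apply monotone_nat_of_le_succ
    intro n
    show F^[n] J ≤ F^[n + 1] J
    rw [Function.iterate_succ_apply]
    exact hF.iterate n hJ
  obtain ⟨n, hn⟩ := monotone_stabilizes_iff_noetherian.2 (inferInstance : IsNoetherian R R)
    ⟨fun n => F^[n] J, hmono⟩
  have h1 : F^[n] J = F^[n] (F J) := by
    have h2 := hn (n + 1) (Nat.le_succ n)
    rw [← Function.iterate_succ_apply]
    exact h2
  exact (hinj.iterate n h1).symm

/-- `ev g P = 0` for all `g` in a submonoid `Γ` implies it for the group -/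
theorem clo_ev (Γ : Set (Matrix.GeneralLinearGroup (Fin d) L)) (h1 : 1 ∈ Γ)
    (hmul : ∀ a ∈ Γ, ∀ b ∈ Γ, a * b ∈ Γ) (P : MvPolynomial (Fin d × Fin d) L)
    (h : ∀ g ∈ Γ, ev (g : Matrix (Fin d) (Fin d) L) P = 0)
    (g : Matrix.GeneralLinearGroup (Fin d) L) (hg : g ∈ Subgroup.closure Γ) :
    ev (g : Matrix (Fin d) (Fin d) L) P = 0 := by
  let J : Ideal (MvPolynomial (Fin d × Fin d) L) :=
    ⨅ g ∈ Γ, RingHom.ker (ev ((g : Matrix.GeneralLinearGroup (Fin d) L) : Matrix (Fin d) (Fin d) L))
  have hJ : ∀ P, P ∈ J ↔ ∀ g ∈ Γ, ev (g : Matrix (Fin d) (Fin d) L) P = 0 := by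
    intro P
    simp only [J, Ideal.mem_iInf, RingHom.mem_ker]
  have hst : ∀ g ∈ Subgroup.closure Γ, ∀ P, tau (g : Matrix (Fin d) (Fin d) L) P ∈ J ↔ P ∈ J := by
    intro g hg
    induction hg using Subgroup.closure_induction with
    | mem γ hγ =>
      have h2 := comap_eq ((tau (γ : Matrix (Fin d) (Fin d) L)).toRingHom)
        ((tau (γ⁻¹ : Matrix.GeneralLinearGroup (Fin d) L).val).toRingHom) (fun x => by
          show tau _ (tau _ x) = x
          rw [tau_mul, ← Units.val_mul, mul_inv_cancel, Units.val_one, tau_one]) J (by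
        intro P hP
        rw [Ideal.mem_comap, hJ]
        intro g hg
        show ev _ (tau _ P) = 0
        rw [ev_tau, ← Units.val_mul]
        exact (hJ P).1 hP _ (hmul g hg γ hγ))
      intro P
      have h3 : P ∈ J.comap ((tau (γ : Matrix (Fin d) (Fin d) L)).toRingHom) ↔ P ∈ J := by rw [h2]
      exact h3
    | one =>
      intro P
      rw [Units.val_one, tau_one]
    | mul a b _ _ ha hb =>
      intro P
      rw [Units.val_mul, ← tau_mul, ha, hb]
    | inv a _ ha =>
      intro P
      rw [← ha (tau _ P), tau_mul, ← Units.val_mul, mul_inv_cancel, Units.val_one, tau_one]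
  have hPJ : P ∈ J := (hJ P).2 h
  have h5 := (hJ _).1 ((hst g hg P).2 hPJ) 1 h1
  rwa [ev_tau, Units.val_one, one_mul] at h5

/-- the polynomial in the entries of `g` given by a polynomial in the coordinates of `ℓ (g z)` -/
noncomputable def pol {ι : Type} (ℓ : (Fin d → L) →ₗ[L] (ι → L)) (z : Fin d → L)
    (F : MvPolynomial ι L) : MvPolynomial (Fin d × Fin d) L :=
  MvPolynomial.aeval (fun i : ι => ∑ k, ∑ l, C (ℓ (Pi.single k 1) i) * X (k, l) * C (z l)) F

theorem ev_pol {ι : Type} (ℓ : (Fin d → L) →ₗ[L] (ι → L)) (z : Fin d → L)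
    (F : MvPolynomial ι L) (g : Matrix (Fin d) (Fin d) L) :
    ev g (pol ℓ z F) = MvPolynomial.eval (ℓ (g.mulVec z)) F := by
  have h2 : ((ev g).comp ((MvPolynomial.aeval (fun i : ι =>
      ∑ k, ∑ l, C (ℓ (Pi.single k 1) i) * X (k, l) * C (z l)) :
        MvPolynomial ι L →ₐ[L] MvPolynomial (Fin d × Fin d) L) : _ →+* _)) =
      MvPolynomial.eval (ℓ (g.mulVec z)) := by
    apply MvPolynomial.ringHom_ext
    · intro r
      simp [ev]
    · intro i
      have h3 : ℓ (g.mulVec z) = ∑ k, (g.mulVec z) k • ℓ (Pi.single k 1) := by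
        have h4 : g.mulVec z = ∑ k, (g.mulVec z) k • (Pi.single k 1 : Fin d → L) := by
          ext m
          simp [Pi.single_apply]
        conv_lhs => rw [h4]
        rw [map_sum]
        refine Finset.sum_congr rfl fun k _ => ?_
        rw [map_smul]
      rw [MvPolynomial.eval_X, h3]
      simp only [ev, RingHom.coe_comp, RingHom.coe_coe, Function.comp_apply, aeval_X, map_sum,
        map_mul, eval_C, eval_X, Finset.sum_apply, Pi.smul_apply, smul_eq_mul, Matrix.mulVec,
        dotProduct, Finset.sum_mul]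
      refine Finset.sum_congr rfl fun k _ => Finset.sum_congr rfl fun l _ => ?_
      ring
  exact congrArg (fun f => f F) h2

/-- a polynomial equation in the coordinates of `ℓ (g z)` on a monoid holds on the group -/
theorem clo {ι : Type} (Γ : Set (Matrix.GeneralLinearGroup (Fin d) L)) (h1 : 1 ∈ Γ)
    (hmul : ∀ a ∈ Γ, ∀ b ∈ Γ, a * b ∈ Γ) (F : MvPolynomial ι L)
    (ℓ : (Fin d → L) →ₗ[L] (ι → L)) (z : Fin d → L)
    (h : ∀ g ∈ Γ, MvPolynomial.eval (ℓ ((g : Matrix (Fin d) (Fin d) L).mulVec z)) F = 0)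
    (g : Matrix.GeneralLinearGroup (Fin d) L) (hg : g ∈ Subgroup.closure Γ) :
    MvPolynomial.eval (ℓ ((g : Matrix (Fin d) (Fin d) L).mulVec z)) F = 0 := by
  have h2 := clo_ev Γ h1 hmul (pol ℓ z F) (fun g hg => by rw [ev_pol]; exact h g hg) g hg
  rwa [ev_pol] at h2

end Pool.Agent.R477.WA
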