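import Pool.Agent.R477.WA.Key

set_option autoImplicit false

/-!
# Weighted automata with values on a projective variety: definitions and finiteness
-/

namespace Pool.Agent.R477.WA

open MvPolynomial Pool.Agent.Y719.SU
open scoped LinearAlgebra.Projectivization

/-- The vector which a weighted automaton with the transition matrices `A` and the initial vector
`v` has computed after reading the word `w` from left to right. -/
def vec {L α : Type} [Field L] {r : ℕ} (A : α → Matrix (Fin r) (Fin r) L) (v : Fin r → L)
    (w : List α) : Fin r → L :=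
  w.foldl (fun x a => (A a).mulVec x) v

variable {K : Type} [Field K] {N : ℕ}

/-- The map `P` from the words in the language `R` to the points of `X(L)` is computed by a finite
automaton outside of `Z`: it has only finitely many values outside of `Z`, each of them is attained
on a regular language, and the words with a value in `Z` form a regular language. -/
def FinAut {α : Type} (L : Type) [Field L] [Algebra K L]
    (I' : Ideal (MvPolynomial (Fin (N + 1)) K)) (R : Language α)
    (P : List α → ℙ L (Fin (N + 1) → L)) : Prop :=
  (P '' {w | w ∈ R} \ Pts L I').Finite ∧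
  (∀ Q, Q ∉ Pts L I' → Language.IsRegular ({w | w ∈ R ∧ P w = Q} : Language α)) ∧
  Language.IsRegular ({w | w ∈ R ∧ P w ∈ Pts L I'} : Language α)

/-- Weighted automata with values on `X` are finite automata outside of `Z`: for all fields `L ⊇ K`,
all finite alphabets, all regular languages `R` and all points `P w`, `w ∈ R`, of `X(L)` with
homogeneous coordinates `M A_{w_n} ⋯ A_{w_1} v ≠ 0`, where the `A_a` are square matrices, `M` is a
matrix and `v` is a vector, the map `w ↦ P w` is computed by a finite automaton outside of `Z`. -/
def WeightedAutomata (I I' : Ideal (MvPolynomial (Fin (N + 1)) K)) : Prop :=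
  ∀ (L : Type) [Field L] [Algebra K L] (α : Type) [Finite α] (R : Language α), R.IsRegular →
    ∀ (r : ℕ) (A : α → Matrix (Fin r) (Fin r) L) (M : Matrix (Fin (N + 1)) (Fin r) L)
      (v : Fin r → L) (P : List α → ℙ L (Fin (N + 1) → L)),
      (∀ w ∈ R, P w ∈ Pts L I ∧ ∃ h : M.mulVec (vec A v w) ≠ 0, P w = Projectivization.mk L _ h) →
      FinAut L I' R P

/-- the automaton with trivial subspaces -/
noncomputable def sysOf {L α σ : Type} [Field L] [Finite σ] (D : DFA α σ) {r : ℕ}
    (A : α → Matrix (Fin r) (Fin r) L) (M : Matrix (Fin (N + 1)) (Fin r) L) :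
    Sys L α (Fin r → L) (Fin (N + 1) → L) where
  Q := σ
  fin := inferInstance
  δ := D.step
  B := fun _ a => (A a).mulVecLin
  W := fun _ => ⊤
  hB := fun _ _ _ _ => Submodule.mem_top
  out := by
    classical
    exact fun q => if q ∈ D.accept then some M.mulVecLin else none

theorem sysOf_dst {L α σ : Type} [Field L] [Finite σ] (D : DFA α σ) {r : ℕ}
    (A : α → Matrix (Fin r) (Fin r) L) (M : Matrix (Fin (N + 1)) (Fin r) L) (q : σ)
    (w : List α) : (sysOf D A M).dst q w = D.evalFrom q w := by
  induction w generalizing q with
  | nil => rfl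
  | cons a w ih => exact ih (D.step q a)

theorem sysOf_Bw {L α σ : Type} [Field L] [Finite σ] (D : DFA α σ) {r : ℕ}
    (A : α → Matrix (Fin r) (Fin r) L) (M : Matrix (Fin (N + 1)) (Fin r) L) (q : σ)
    (w : List α) (v : Fin r → L) : (sysOf D A M).Bw q w v = vec A v w := by
  induction w generalizing q v with
  | nil => rfl
  | cons a w ih => exact ih (D.step q a) ((A a).mulVec v)

theorem regular_of_auto {α β : Type} {f : List α → β} (hf : Auto f) (S : Set β) :
    Language.IsRegular ({w | f w ∈ S} : Language α) := by
  apply Language.IsRegular.of_finite_range_leftQuotient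
  have h1 : Set.range (Language.leftQuotient ({w | f w ∈ S} : Language α)) ⊆
      (fun g : List α → β => ({u | g u ∈ S} : Language α)) ''
        (Set.range fun (w : List α) (u : List α) => f (w ++ u)) := by
    rintro _ ⟨w, rfl⟩
    exact ⟨_, ⟨w, rfl⟩, rfl⟩
  exact (hf.image _).subset h1

theorem finite_of_auto {α β : Type} {f : List α → β} (hf : Auto f) : (Set.range f).Finite := by
  have h1 : Set.range f ⊆ (fun g : List α → β => g []) ''
      (Set.range fun (w : List α) (u : List α) => f (w ++ u)) := by
    rintro _ ⟨w, rfl⟩
    exact ⟨_, ⟨w, rfl⟩, by simp⟩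
  exact (hf.image _).subset h1

/-- **Finiteness** -/
theorem weighted_of_noRat [NumberField K] {I I' : Ideal (MvPolynomial (Fin (N + 1)) K)}
    (h : NoRatNF I I') : WeightedAutomata I I' := by
  classical
  intro L _ _ α _ R hR r A M v P hP
  obtain ⟨σ, _, D, rfl⟩ := hR
  let S := sysOf D A M
  let col := colZ L I'
  have hout : ∀ w, S.out (S.dst D.start w) =
      if w ∈ D.accepts then some M.mulVecLin else none := by
    intro w
    show (if S.dst D.start w ∈ D.accept then some M.mulVecLin else none) = _
    rw [sysOf_dst]
    rfl
  have hval : S.Valid (Ok (FFL L I)) D.start v := by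
    intro w M' hM'
    rw [hout] at hM'
    split_ifs at hM' with hw
    · rw [Option.mem_def, Option.some_inj] at hM'
      subst hM'
      obtain ⟨h1, h2, h3⟩ := hP w hw
      rw [sysOf_Bw]
      refine ⟨h2, ?_⟩
      rw [ffl_iff]
      rw [h3, mem_pts] at h1
      exact h1
    · exact absurd hM' (by simp)
  have hauto : Auto (S.beh col D.start v) :=
    auto_main col (fun c hc y => colZ_smul I' c hc y) (FFL L I) (kp_of_noRat h L) r _ S D.start v
      (fun q => (Submodule.finrank_le _).trans (by rw [Module.finrank_fin_fun])) le_rfl
      Submodule.mem_top hval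
  have hbeh : ∀ w, S.beh col D.start v w =
      if w ∈ D.accepts then some (col (M.mulVec (vec A v w))) else none := by
    intro w
    unfold Sys.beh Sys.val
    rw [hout, sysOf_Bw]
    split_ifs <;> rfl
  -- the value at a word and the colour
  have hcol : ∀ w ∈ D.accepts, ∀ Q, Q ∉ Pts L I' →
      (P w = Q ↔ col (M.mulVec (vec A v w)) = some Q.submodule) := by
    intro w hw Q hQ
    obtain ⟨h1, h2, h3⟩ := hP w hw
    have hsub : (P w).submodule = Submodule.span L {M.mulVec (vec A v w)} := by
      rw [h3]
      exact Projectivization.submodule_mk _ _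
    constructor
    · intro h4
      have h5 : ¬ OnI (algebraMap K L) I' (M.mulVec (vec A v w)) := by
        rw [← mem_pts h2, ← h3, h4]
        exact hQ
      show (if OnI (algebraMap K L) I' (M.mulVec (vec A v w)) then none else
        some (Submodule.span L {M.mulVec (vec A v w)})) = _
      rw [if_neg h5, ← hsub, h4]
    · intro h4
      change (if OnI (algebraMap K L) I' (M.mulVec (vec A v w)) then none else
        some (Submodule.span L {M.mulVec (vec A v w)})) = _ at h4
      split_ifs at h4 with h5
      rw [Option.some_inj, ← hsub] at h4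
      exact Projectivization.submodule_injective h4
  have hcolZ : ∀ w ∈ D.accepts,
      (P w ∈ Pts L I' ↔ col (M.mulVec (vec A v w)) = none) := by
    intro w hw
    obtain ⟨h1, h2, h3⟩ := hP w hw
    rw [h3, mem_pts]
    show _ ↔ (if OnI (algebraMap K L) I' (M.mulVec (vec A v w)) then none else
        some (Submodule.span L {M.mulVec (vec A v w)})) = none
    split_ifs with h5
    · exact iff_of_true h5 rfl
    · exact iff_of_false h5 (by simp)
  refine ⟨?_, ?_, ?_⟩
  · have h1 := finite_of_auto hauto
    refine Set.Finite.of_finite_image (f := fun Q => some (some Q.submodule)) (h1.subset ?_) ?_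
    · rintro _ ⟨Q, ⟨⟨w, hw, rfl⟩, hQ⟩, rfl⟩
      have hw' : w ∈ D.accepts := hw
      refine ⟨w, ?_⟩
      rw [hbeh, if_pos hw', (hcol w hw' _ hQ).1 rfl]
    · intro Q _ Q' _ hQQ
      exact Projectivization.submodule_injective (Option.some_inj.1 (Option.some_inj.1 hQQ))
  · intro Q hQ
    have h1 := regular_of_auto hauto {some (some Q.submodule)}
    have h2 : ({w | w ∈ D.accepts ∧ P w = Q} : Language α) =
        ({w | S.beh col D.start v w ∈ ({some (some Q.submodule)} : Set _)} : Language α) := by
      ext w
      show (w ∈ D.accepts ∧ P w = Q) ↔ S.beh col D.start v w = some (some Q.submodule)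
      rw [hbeh]
      by_cases hw : w ∈ D.accepts
      · rw [if_pos hw, hcol w hw Q hQ, Option.some_inj]
        exact and_iff_right hw
      · rw [if_neg hw]
        exact iff_of_false (fun h => hw h.1) (by simp)
    rw [h2]
    exact h1
  · have h1 := regular_of_auto hauto {some none}
    have h2 : ({w | w ∈ D.accepts ∧ P w ∈ Pts L I'} : Language α) =
        ({w | S.beh col D.start v w ∈ ({some none} : Set _)} : Language α) := by
      ext w
      show (w ∈ D.accepts ∧ P w ∈ Pts L I') ↔ S.beh col D.start v w = some none
      rw [hbeh]
      by_cases hw : w ∈ D.accepts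
      · rw [if_pos hw, hcolZ w hw, Option.some_inj]
        exact and_iff_right hw
      · rw [if_neg hw]
        exact iff_of_false (fun h => hw h.1) (by simp)
    rw [h2]
    exact h1

end Pool.Agent.R477.WA
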