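import Mathlib

set_option autoImplicit false

/-!
# Weighted automata with a subspace attached to every state
-/

namespace Pool.Agent.R477.WA

/-- A system: finitely many states, a subspace attached to each state, linear maps attached to the
transitions, and linear maps to the space of the values attached to the accepting states. -/
structure Sys (L α V U : Type) [Field L] [AddCommGroup V] [Module L V] [AddCommGroup U]
    [Module L U] where
  Q : Type
  fin : Finite Q
  δ : Q → α → Q
  B : Q → α → V →ₗ[L] V
  W : Q → Submodule L V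
  hB : ∀ q a x, x ∈ W q → B q a x ∈ W (δ q a)
  out : Q → Option (V →ₗ[L] U)

/-- finitely many left quotients -/
def Auto {α β : Type} (f : List α → β) : Prop :=
  (Set.range fun (w : List α) (u : List α) => f (w ++ u)).Finite

variable {L α V U : Type} [Field L] [AddCommGroup V] [Module L V] [AddCommGroup U] [Module L U]
  {β : Type}

namespace Sys

/-- the state after a word -/
def dst (S : Sys L α V U) : S.Q → List α → S.Q
  | q, [] => q
  | q, a :: u => S.dst (S.δ q a) u

/-- the linear map of a word -/
def Bw (S : Sys L α V U) : S.Q → List α → V →ₗ[L] V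
  | _, [] => LinearMap.id
  | q, a :: u => (S.Bw (S.δ q a) u) ∘ₗ S.B q a

/-- the colour of the value -/
def val (S : Sys L α V U) (col : U → β) (q : S.Q) (x : V) : Option β :=
  (S.out q).map fun M => col (M x)

/-- the behaviour of a position -/
def beh (S : Sys L α V U) (col : U → β) (q : S.Q) (x : V) (u : List α) : Option β :=
  S.val col (S.dst q u) (S.Bw q u x)

/-- all values which can be reached from a position are admissible -/
def Valid (S : Sys L α V U) (ok : U → Prop) (q : S.Q) (x : V) : Prop :=
  ∀ u, ∀ M ∈ S.out (S.dst q u), ok (M (S.Bw q u x))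

variable (S : Sys L α V U)

@[simp] theorem dst_nil (q : S.Q) : S.dst q [] = q := by rw [dst]
@[simp] theorem dst_cons (q : S.Q) (a : α) (u : List α) :
    S.dst q (a :: u) = S.dst (S.δ q a) u := by rw [dst]
@[simp] theorem Bw_nil (q : S.Q) (x : V) : S.Bw q [] x = x := by rw [Bw]; rfl
@[simp] theorem Bw_cons (q : S.Q) (a : α) (u : List α) (x : V) :
    S.Bw q (a :: u) x = S.Bw (S.δ q a) u (S.B q a x) := by rw [Bw]; rfl

theorem dst_append (q : S.Q) (u u' : List α) : S.dst q (u ++ u') = S.dst (S.dst q u) u' := by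
  induction u generalizing q with
  | nil => rw [dst_nil, List.nil_append]
  | cons a u ih => rw [List.cons_append, dst_cons, dst_cons, ih]

theorem Bw_append (q : S.Q) (u u' : List α) (x : V) :
    S.Bw q (u ++ u') x = S.Bw (S.dst q u) u' (S.Bw q u x) := by
  induction u generalizing q x with
  | nil => rw [dst_nil, List.nil_append, Bw_nil]
  | cons a u ih => rw [List.cons_append, dst_cons, Bw_cons, Bw_cons, ih]

theorem Bw_mem (q : S.Q) (u : List α) (x : V) (hx : x ∈ S.W q) : S.Bw q u x ∈ S.W (S.dst q u) := by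
  induction u generalizing q x with
  | nil => rwa [dst_nil, Bw_nil]
  | cons a u ih =>
    rw [dst_cons, Bw_cons]
    exact ih _ _ (S.hB q a x hx)

theorem beh_append (col : U → β) (q : S.Q) (x : V) (w u : List α) :
    S.beh col q x (w ++ u) = S.beh col (S.dst q w) (S.Bw q w x) u := by
  unfold beh
  rw [dst_append, Bw_append]

theorem beh_cons (col : U → β) (q : S.Q) (x : V) (a : α) (u : List α) :
    S.beh col q x (a :: u) = S.beh col (S.δ q a) (S.B q a x) u := by
  unfold beh
  rw [dst_cons, Bw_cons]

theorem beh_step {col : U → β} {q : S.Q} {x y : V} (h : S.beh col q x = S.beh col q y) (a : α) :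
    S.beh col (S.δ q a) (S.B q a x) = S.beh col (S.δ q a) (S.B q a y) := by
  funext u
  rw [← beh_cons, ← beh_cons, h]

theorem Valid.word {ok : U → Prop} {q : S.Q} {x : V} (h : S.Valid ok q x) (w : List α) :
    S.Valid ok (S.dst q w) (S.Bw q w x) := by
  intro u M hM
  rw [← Bw_append]
  rw [← dst_append] at hM
  exact h _ M hM

theorem Valid.step {ok : U → Prop} {q : S.Q} {x : V} (h : S.Valid ok q x) (a : α) :
    S.Valid ok (S.δ q a) (S.B q a x) := by
  have := h.word (S := S) [a]
  simpa using this

/-- **the base of the induction**: subspaces of dimension at most one -/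
theorem base [FiniteDimensional L V] (col : U → β) (hcol : ∀ c : L, c ≠ 0 → ∀ y, col (c • y) = col y)
    (h1 : ∀ q, Module.finrank L (S.W q) ≤ 1) (q0 : S.Q) (v : V) (hv : v ∈ S.W q0) :
    Auto (S.beh col q0 v) := by
  classical
  have := S.fin
  have he : ∀ q, ∃ e : V, ∀ x ∈ S.W q, ∃ c : L, x = c • e := by
    intro q
    obtain ⟨e, he⟩ := finrank_le_one_iff.1 (h1 q)
    refine ⟨e, fun x hx => ?_⟩
    obtain ⟨c, hc⟩ := he ⟨x, hx⟩
    refine ⟨c, ?_⟩
    have := congrArg (Subtype.val) hc
    simpa using this.symm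
  choose e he using he
  refine (Set.finite_range fun p : S.Q × Bool => S.beh col p.1 (if p.2 then e p.1 else 0)).subset ?_
  rintro _ ⟨w, rfl⟩
  obtain ⟨c, hc⟩ := he _ _ (S.Bw_mem q0 w v hv)
  have h2 : (fun u => S.beh col q0 v (w ++ u)) = S.beh col (S.dst q0 w) (S.Bw q0 w v) := by
    funext u
    rw [beh_append]
  show (fun u => S.beh col q0 v (w ++ u)) ∈ _
  rw [h2, hc]
  by_cases h0 : c = 0
  · refine ⟨(S.dst q0 w, false), ?_⟩
    simp [h0]
  · refine ⟨(S.dst q0 w, true), ?_⟩
    funext u
    simp only [if_true]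
    unfold beh val
    rw [map_smul]
    congr 1
    funext M
    rw [map_smul, hcol c h0]

/-- the transition maps the subspace onto a subspace, both of dimension `d` -/
def FullEdge (d : ℕ) (q : S.Q) (a : α) : Prop :=
  Module.finrank L (S.W q) = d ∧ Module.finrank L (S.W (S.δ q a)) = d ∧
    (S.W q).map (S.B q a) = S.W (S.δ q a)

/-- words all of whose transitions are full -/
def Full (d : ℕ) : S.Q → List α → Prop
  | _, [] => True
  | q, a :: u => S.FullEdge d q a ∧ Full d (S.δ q a) u

theorem full_nil (d : ℕ) (q : S.Q) : S.Full d q [] := by rw [Full]; trivial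

theorem full_cons (d : ℕ) (q : S.Q) (a : α) (u : List α) :
    S.Full d q (a :: u) ↔ S.FullEdge d q a ∧ S.Full d (S.δ q a) u := by rw [Full]

theorem full_append (d : ℕ) (q : S.Q) (u u' : List α) :
    S.Full d q (u ++ u') ↔ S.Full d q u ∧ S.Full d (S.dst q u) u' := by
  induction u generalizing q with
  | nil => simp [full_nil]
  | cons a u ih => rw [List.cons_append, full_cons, full_cons, dst_cons, ih, and_assoc]

theorem full_single (d : ℕ) (q : S.Q) (a : α) : S.Full d q [a] ↔ S.FullEdge d q a := by
  rw [full_cons]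
  exact and_iff_left (S.full_nil d _)

theorem full_map (d : ℕ) (q : S.Q) (u : List α) (h : S.Full d q u) :
    (S.W q).map (S.Bw q u) = S.W (S.dst q u) := by
  induction u generalizing q with
  | nil =>
    rw [dst_nil]
    ext x
    simp
  | cons a u ih =>
    rw [full_cons] at h
    rw [dst_cons, ← ih _ h.2, ← h.1.2.2, Bw, Submodule.map_comp]

theorem full_rank (d : ℕ) (q : S.Q) (u : List α) (h : S.Full d q u)
    (hq : Module.finrank L (S.W q) = d) : Module.finrank L (S.W (S.dst q u)) = d := by
  induction u generalizing q with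
  | nil => rwa [dst_nil]
  | cons a u ih =>
    rw [full_cons] at h
    rw [dst_cons]
    exact ih _ h.2 h.1.2.1

/-- reachability by full words -/
def reach (d : ℕ) (q q' : S.Q) : Prop := ∃ u, S.Full d q u ∧ S.dst q u = q'

theorem reach_refl (d : ℕ) (q : S.Q) : S.reach d q q := ⟨[], S.full_nil d q, S.dst_nil q⟩

theorem reach_trans (d : ℕ) {q q' q'' : S.Q} (h : S.reach d q q') (h' : S.reach d q' q'') :
    S.reach d q q'' := by
  obtain ⟨u, h1, h2⟩ := h
  obtain ⟨u', h3, h4⟩ := h'
  refine ⟨u ++ u', (S.full_append d q u u').2 ⟨h1, by rwa [h2]⟩, ?_⟩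
  rw [S.dst_append, h2, h4]

/-- a state of dimension `d` which is minimal for reachability -/
theorem exists_source (d : ℕ) (q1 : S.Q) (h1 : Module.finrank L (S.W q1) = d) :
    ∃ b, Module.finrank L (S.W b) = d ∧
      ∀ q, Module.finrank L (S.W q) = d → S.reach d q b → S.reach d b q := by
  classical
  have := S.fin
  let D : Set S.Q := {q | Module.finrank L (S.W q) = d}
  obtain ⟨b, hb, hmin⟩ := Set.exists_min_image D (fun b => {q | q ∈ D ∧ S.reach d q b}.ncard)
    (Set.toFinite D) ⟨q1, h1⟩
  refine ⟨b, hb, fun q hq hqb => ?_⟩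
  by_contra hbq
  have hlt : {q' | q' ∈ D ∧ S.reach d q' q}.ncard < {q' | q' ∈ D ∧ S.reach d q' b}.ncard := by
    apply Set.ncard_lt_ncard _ (Set.toFinite _)
    refine ⟨fun q' hq' => ⟨hq'.1, S.reach_trans d hq'.2 hqb⟩, fun hsub => ?_⟩
    exact hbq (hsub ⟨hb, S.reach_refl d b⟩).2
  exact absurd (hmin q hq) (not_le.2 hlt)

end Sys

end Pool.Agent.R477.WA
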