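import Pool.Agent.R477.WA.Clo
import Pool.Agent.R477.WA.Sys

set_option autoImplicit false

/-!
# The group attached to a source component of the states of dimension `d`
-/

namespace Pool.Agent.R477.WA

open Module

variable {L α V : Type} [Field L] [AddCommGroup V] [Module L V] {ι : Type}

/-- a source component of the states of dimension `d`, with coordinates -/
structure Core (S : Sys L α V (ι → L)) (d : ℕ) where
  C : Set S.Q
  b : S.Q
  θ : S.Q → (Fin d → L) →ₗ[L] V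
  G : S.Q → α → Matrix.GeneralLinearGroup (Fin d) L
  hb : b ∈ C
  hrank : ∀ q ∈ C, finrank L (S.W q) = d
  hreach : ∀ q ∈ C, ∀ q' ∈ C, S.reach d q q'
  hsrc : ∀ q a, S.FullEdge d q a → S.δ q a ∈ C → q ∈ C
  hθ : ∀ q ∈ C, LinearMap.range (θ q) = S.W q
  hinj : ∀ q ∈ C, Function.Injective (θ q)
  hG : ∀ q a, S.FullEdge d q a → S.δ q a ∈ C → ∀ y, S.B q a (θ q y) =
    θ (S.δ q a) ((G q a : Matrix (Fin d) (Fin d) L).mulVec y)
  hG1 : ∀ q a, ¬ (S.FullEdge d q a ∧ S.δ q a ∈ C) → G q a = 1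
  hπ : ∀ q ∈ C, ∃ u, S.Full d b u ∧ S.dst b u = q ∧ ∀ y, S.Bw b u (θ b y) = θ q y

theorem exists_G {d : ℕ} (θ θ' : (Fin d → L) →ₗ[L] V) (hi' : Function.Injective θ')
    (B : V →ₗ[L] V) (hB : (LinearMap.range θ).map B = LinearMap.range θ') :
    ∃ g : Matrix.GeneralLinearGroup (Fin d) L, ∀ y, B (θ y) =
      θ' ((g : Matrix (Fin d) (Fin d) L).mulVec y) := by
  classical
  let e := LinearEquiv.ofInjective θ' hi'
  have hmem : ∀ y, (B ∘ₗ θ) y ∈ LinearMap.range θ' := by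
    intro y
    rw [← hB]
    exact ⟨θ y, ⟨y, rfl⟩, rfl⟩
  let f : (Fin d → L) →ₗ[L] (Fin d → L) :=
    (e.symm : _ →ₗ[L] _) ∘ₗ ((B ∘ₗ θ).codRestrict (LinearMap.range θ') hmem)
  have hf : ∀ y, θ' (f y) = B (θ y) := by
    intro y
    have h1 : ((e (f y) : LinearMap.range θ') : V) = θ' (f y) := LinearEquiv.ofInjective_apply _ _
    rw [← h1]
    show ((e (e.symm _) : LinearMap.range θ') : V) = _
    rw [LinearEquiv.apply_symm_apply]
    rfl
  have hsurj : Function.Surjective f := by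
    intro z
    have h1 : θ' z ∈ (LinearMap.range θ).map B := by
      rw [hB]
      exact ⟨z, rfl⟩
    obtain ⟨_, ⟨y, rfl⟩, h2⟩ := h1
    refine ⟨y, hi' ?_⟩
    rw [hf, h2]
  have hbij : Function.Bijective f :=
    ⟨LinearMap.injective_iff_surjective.2 hsurj, hsurj⟩
  let E : (Fin d → L) ≃ₗ[L] (Fin d → L) := LinearEquiv.ofBijective f hbij
  have h12 : LinearMap.toMatrix' (E : (Fin d → L) →ₗ[L] (Fin d → L)) *
      LinearMap.toMatrix' (E.symm : (Fin d → L) →ₗ[L] (Fin d → L)) = 1 := by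
    rw [← LinearMap.toMatrix'_comp, ← LinearMap.toMatrix'_one]
    congr 1
    ext y
    simp
  have h21 : LinearMap.toMatrix' (E.symm : (Fin d → L) →ₗ[L] (Fin d → L)) *
      LinearMap.toMatrix' (E : (Fin d → L) →ₗ[L] (Fin d → L)) = 1 := by
    rw [← LinearMap.toMatrix'_comp, ← LinearMap.toMatrix'_one]
    congr 1
    ext y
    simp
  refine ⟨⟨_, _, h12, h21⟩, fun y => ?_⟩
  show B (θ y) = θ' ((LinearMap.toMatrix' (E : (Fin d → L) →ₗ[L] (Fin d → L))).mulVec y)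
  rw [LinearMap.toMatrix'_mulVec]
  exact (hf y).symm

theorem exists_core [FiniteDimensional L V] (S : Sys L α V (ι → L)) (d : ℕ) (q1 : S.Q)
    (h1 : finrank L (S.W q1) = d) : Nonempty (Core S d) := by
  classical
  obtain ⟨b, hb, hmin⟩ := S.exists_source d q1 h1
  let C : Set S.Q := {q | finrank L (S.W q) = d ∧ S.reach d b q ∧ S.reach d q b}
  have hbC : b ∈ C := ⟨hb, S.reach_refl d b, S.reach_refl d b⟩
  have hπ : ∀ q, ∃ u, (q ∈ C → S.Full d b u ∧ S.dst b u = q) ∧ (q = b → u = []) := by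
    intro q
    by_cases hq : q = b
    · subst hq
      exact ⟨[], fun _ => ⟨S.full_nil d _, S.dst_nil _⟩, fun _ => rfl⟩
    by_cases hqC : q ∈ C
    · obtain ⟨u, hu⟩ := hqC.2.1
      exact ⟨u, fun _ => hu, fun h => absurd h hq⟩
    · exact ⟨[], fun h => absurd h hqC, fun h => absurd h hq⟩
  choose π hπ1 hπ2 using hπ
  let e : (Fin d → L) ≃ₗ[L] S.W b := (finBasisOfFinrankEq L (S.W b) hb).equivFun.symm
  let θ : S.Q → (Fin d → L) →ₗ[L] V := fun q =>
    (S.Bw b (π q)) ∘ₗ (S.W b).subtype ∘ₗ (e : (Fin d → L) →ₗ[L] S.W b)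
  have hθ : ∀ q ∈ C, LinearMap.range (θ q) = S.W q := by
    intro q hq
    have h2 := S.full_map d b (π q) (hπ1 q hq).1
    rw [(hπ1 q hq).2] at h2
    rw [← h2]
    ext x
    constructor
    · rintro ⟨y, rfl⟩
      exact ⟨(e y : V), (e y).2, rfl⟩
    · rintro ⟨y, hy, rfl⟩
      refine ⟨e.symm ⟨y, hy⟩, ?_⟩
      show S.Bw b (π q) ((e (e.symm ⟨y, hy⟩) : S.W b) : V) = _
      rw [LinearEquiv.apply_symm_apply]
  have hinj : ∀ q ∈ C, Function.Injective (θ q) := by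
    intro q hq
    rw [← LinearMap.ker_eq_bot]
    have h2 := LinearMap.finrank_range_add_finrank_ker (θ q)
    rw [hθ q hq, hq.1, finrank_fin_fun] at h2
    exact Submodule.finrank_eq_zero.1 (by omega)
  have hsrc : ∀ q a, S.FullEdge d q a → S.δ q a ∈ C → q ∈ C := by
    intro q a hfe hC
    have h2 : S.reach d q (S.δ q a) := ⟨[a], (S.full_single d q a).2 hfe, by simp⟩
    have h3 := S.reach_trans d h2 hC.2.2
    exact ⟨hfe.1, hmin q hfe.1 h3, h3⟩
  have hG : ∀ q a, ∃ g : Matrix.GeneralLinearGroup (Fin d) L,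
      (S.FullEdge d q a ∧ S.δ q a ∈ C → ∀ y, S.B q a (θ q y) =
        θ (S.δ q a) ((g : Matrix (Fin d) (Fin d) L).mulVec y)) ∧
      (¬ (S.FullEdge d q a ∧ S.δ q a ∈ C) → g = 1) := by
    intro q a
    by_cases h : S.FullEdge d q a ∧ S.δ q a ∈ C
    · have hq := hsrc q a h.1 h.2
      obtain ⟨g, hg⟩ := exists_G (θ q) (θ (S.δ q a)) (hinj _ h.2) (S.B q a) (by
        rw [hθ q hq, hθ _ h.2]
        exact h.1.2.2)
      exact ⟨g, fun _ => hg, fun h' => absurd h h'⟩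
    · exact ⟨1, fun h' => absurd h' h, fun _ => rfl⟩
  choose G hG1 hG2 using hG
  refine ⟨⟨C, b, θ, G, hbC, fun q hq => hq.1, fun q hq q' hq' => S.reach_trans d hq.2.2 hq'.2.1,
    hsrc, hθ, hinj, fun q a h h' => hG1 q a ⟨h, h'⟩, hG2, fun q hq => ⟨π q, (hπ1 q hq).1,
    (hπ1 q hq).2, fun y => ?_⟩⟩⟩
  show S.Bw b (π q) (S.Bw b (π b) ((e y : S.W b) : V)) = S.Bw b (π q) ((e y : S.W b) : V)
  rw [hπ2 b rfl, S.Bw_nil]

namespace Core

variable {S : Sys L α V (ι → L)} {d : ℕ} (K : Core S d)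

/-- the matrix of a word -/
noncomputable def hw (K : Core S d) : S.Q → List α → Matrix.GeneralLinearGroup (Fin d) L
  | _, [] => 1
  | q, a :: u => K.hw (S.δ q a) u * K.G q a

theorem hw_nil (q : S.Q) : K.hw q [] = 1 := by rw [hw]
theorem hw_cons (q : S.Q) (a : α) (u : List α) :
    K.hw q (a :: u) = K.hw (S.δ q a) u * K.G q a := by rw [hw]

theorem hw_append (q : S.Q) (u u' : List α) :
    K.hw q (u ++ u') = K.hw (S.dst q u) u' * K.hw q u := by
  induction u generalizing q with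
  | nil => rw [List.nil_append, S.dst_nil, hw_nil, mul_one]
  | cons a u ih => rw [List.cons_append, hw_cons, hw_cons, S.dst_cons, ih, mul_assoc]

/-- the group -/
def H : Subgroup (Matrix.GeneralLinearGroup (Fin d) L) :=
  Subgroup.closure (Set.range fun p : S.Q × α => K.G p.1 p.2)

theorem G_mem (q : S.Q) (a : α) : K.G q a ∈ K.H := Subgroup.subset_closure ⟨(q, a), rfl⟩

theorem hw_mem (q : S.Q) (u : List α) : K.hw q u ∈ K.H := by
  induction u generalizing q with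
  | nil => rw [hw_nil]; exact K.H.one_mem
  | cons a u ih => rw [hw_cons]; exact K.H.mul_mem (ih _) (K.G_mem q a)

theorem mem_of_full (q : S.Q) (u : List α) (h : S.Full d q u) (h' : S.dst q u ∈ K.C) :
    q ∈ K.C := by
  induction u generalizing q with
  | nil => rwa [S.dst_nil] at h'
  | cons a u ih =>
    rw [S.full_cons] at h
    rw [S.dst_cons] at h'
    exact K.hsrc q a h.1 (ih _ h.2 h')

theorem hw_spec (q : S.Q) (u : List α) (h : S.Full d q u) (h' : S.dst q u ∈ K.C)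
    (y : Fin d → L) : S.Bw q u (K.θ q y) =
      K.θ (S.dst q u) ((K.hw q u : Matrix (Fin d) (Fin d) L).mulVec y) := by
  induction u generalizing q y with
  | nil => rw [S.dst_nil, S.Bw_nil, hw_nil, Units.val_one, Matrix.one_mulVec]
  | cons a u ih =>
    rw [S.full_cons] at h
    rw [S.dst_cons] at h'
    rw [S.dst_cons, S.Bw_cons, K.hG q a h.1 (K.mem_of_full _ u h.2 h'), ih _ h.2 h', hw_cons,
      Units.val_mul, Matrix.mulVec_mulVec]

theorem exists_pi (q : S.Q) (hq : q ∈ K.C) :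
    ∃ u, S.Full d K.b u ∧ S.dst K.b u = q ∧ K.hw K.b u = 1 := by
  obtain ⟨u, h1, h2, h3⟩ := K.hπ q hq
  refine ⟨u, h1, h2, ?_⟩
  have h4 : ∀ y, (K.hw K.b u : Matrix (Fin d) (Fin d) L).mulVec y = y := by
    intro y
    apply K.hinj q hq
    have h5 := K.hw_spec K.b u h1 (by rwa [h2]) y
    rw [h3, h2] at h5
    exact h5.symm
  apply Units.ext
  apply Matrix.toLin'.injective
  apply LinearMap.ext
  intro y
  rw [Matrix.toLin'_apply, h4, Units.val_one, Matrix.toLin'_one, LinearMap.id_apply]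

/-- the matrices of the closed full words at the base point -/
def Γ : Set (Matrix.GeneralLinearGroup (Fin d) L) :=
  {g | ∃ u, S.Full d K.b u ∧ S.dst K.b u = K.b ∧ K.hw K.b u = g}

theorem H_le : K.H ≤ Subgroup.closure K.Γ := by
  unfold H
  rw [Subgroup.closure_le]
  rintro _ ⟨⟨q, a⟩, rfl⟩
  show K.G q a ∈ Subgroup.closure K.Γ
  by_cases h : S.FullEdge d q a ∧ S.δ q a ∈ K.C
  · obtain ⟨u1, h1, h2, h3⟩ := K.exists_pi q (K.hsrc q a h.1 h.2)
    obtain ⟨u3, h4, h5, h6⟩ := K.exists_pi _ h.2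
    obtain ⟨u2, h7, h8⟩ := K.hreach _ h.2 _ K.hb
    have e1 : K.hw (S.δ q a) u2 ∈ Subgroup.closure K.Γ := by
      apply Subgroup.subset_closure
      refine ⟨u3 ++ u2, (S.full_append d _ _ _).2 ⟨h4, by rwa [h5]⟩, ?_, ?_⟩
      · rw [S.dst_append, h5, h8]
      · rw [hw_append, h6, h5, mul_one]
    have e2 : K.hw (S.δ q a) u2 * K.G q a ∈ Subgroup.closure K.Γ := by
      apply Subgroup.subset_closure
      refine ⟨u1 ++ (a :: u2), (S.full_append d _ _ _).2 ⟨h1, ?_⟩, ?_, ?_⟩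
      · rw [h2, S.full_cons]
        exact ⟨h.1, h7⟩
      · rw [S.dst_append, h2, S.dst_cons, h8]
      · rw [hw_append, h3, h2, mul_one, hw_cons]
    have e3 : K.G q a = (K.hw (S.δ q a) u2)⁻¹ * (K.hw (S.δ q a) u2 * K.G q a) := by group
    rw [e3]
    exact Subgroup.mul_mem _ (Subgroup.inv_mem _ e1) e2
  · rw [K.hG1 q a h]
    exact Subgroup.one_mem _

/-- the values of the group elements satisfy the equations -/
theorem cone_all (FF : Set (MvPolynomial ι L)) (l j : S.Q) (hl : l ∈ K.C) (hj : j ∈ K.C)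
    (ℓ : (Fin d → L) →ₗ[L] (ι → L)) (y : Fin d → L)
    (h : ∀ u, S.Full d l u → S.dst l u = j → ∀ F ∈ FF, MvPolynomial.eval
      (ℓ ((K.hw l u : Matrix (Fin d) (Fin d) L).mulVec y)) F = 0)
    (g : Matrix.GeneralLinearGroup (Fin d) L) (hg : g ∈ K.H) (F : MvPolynomial ι L)
    (hF : F ∈ FF) :
    MvPolynomial.eval (ℓ ((g : Matrix (Fin d) (Fin d) L).mulVec y)) F = 0 := by
  obtain ⟨u1, h1, h2⟩ := K.hreach l hl _ K.hb
  obtain ⟨u3, h4, h5, h6⟩ := K.exists_pi j hj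
  have h7 := clo K.Γ ⟨[], S.full_nil d _, S.dst_nil _, K.hw_nil _⟩ (by
    rintro _ ⟨u, e1, e2, rfl⟩ _ ⟨u', e3, e4, rfl⟩
    refine ⟨u' ++ u, (S.full_append d _ _ _).2 ⟨e3, by rwa [e4]⟩, ?_, ?_⟩
    · rw [S.dst_append, e4, e2]
    · rw [hw_append, e4]) F ℓ ((K.hw l u1 : Matrix (Fin d) (Fin d) L).mulVec y) (by
    rintro _ ⟨u, e1, e2, rfl⟩
    have h8 := h (u1 ++ (u ++ u3)) ((S.full_append d _ _ _).2 ⟨h1, by
      rw [h2]
      exact (S.full_append d _ _ _).2 ⟨e1, by rwa [e2]⟩⟩) (by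
      rw [S.dst_append, h2, S.dst_append, e2, h5]) F hF
    rw [hw_append, h2, hw_append, e2, h6, one_mul, Units.val_mul, ← Matrix.mulVec_mulVec] at h8
    exact h8) (g * (K.hw l u1)⁻¹)
    (K.H_le (K.H.mul_mem hg (K.H.inv_mem (K.hw_mem l u1))))
  rw [Matrix.mulVec_mulVec, ← Units.val_mul, inv_mul_cancel_right] at h7
  exact h7

/-- **Two full words of the same class lead to positions with the same behaviour.** -/
theorem same_beh {β : Type} (col : (ι → L) → β) (FF : Set (MvPolynomial ι L)) (N : Subgroup K.H)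
    (hN : ∀ (ℓ : (Fin d → L) →ₗ[L] (ι → L)) (y : Fin d → L),
      (∀ h : K.H, ∀ F ∈ FF, MvPolynomial.eval
        (ℓ (((h : Matrix.GeneralLinearGroup (Fin d) L) : Matrix (Fin d) (Fin d) L).mulVec y))
          F = 0) → ∀ g g' : K.H, g⁻¹ * g' ∈ N →
      ℓ (((g : Matrix.GeneralLinearGroup (Fin d) L) : Matrix (Fin d) (Fin d) L).mulVec y) ≠ 0 →
      ℓ (((g' : Matrix.GeneralLinearGroup (Fin d) L) : Matrix (Fin d) (Fin d) L).mulVec y) ≠ 0 →
      col (ℓ (((g : Matrix.GeneralLinearGroup (Fin d) L) :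
        Matrix (Fin d) (Fin d) L).mulVec y)) =
      col (ℓ (((g' : Matrix.GeneralLinearGroup (Fin d) L) :
        Matrix (Fin d) (Fin d) L).mulVec y)))
    (l j : S.Q) (hl : l ∈ K.C) (hj : j ∈ K.C) (u u' : List α) (hu : S.Full d l u)
    (hu' : S.Full d l u') (huj : S.dst l u = j) (huj' : S.dst l u' = j)
    (hcl : (⟨K.hw l u, K.hw_mem l u⟩ : K.H)⁻¹ * ⟨K.hw l u', K.hw_mem l u'⟩ ∈ N) (x : V)
    (hx : x ∈ S.W l)
    (hv : S.Valid (fun y => y ≠ 0 ∧ ∀ F ∈ FF, MvPolynomial.eval y F = 0) l x) :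
    S.beh col j (S.Bw l u x) = S.beh col j (S.Bw l u' x) := by
  rw [← K.hθ l hl] at hx
  obtain ⟨y, rfl⟩ := hx
  funext t
  unfold Sys.beh Sys.val
  rcases hM : S.out (S.dst j t) with _ | M
  · rfl
  simp only [Option.map_some]
  congr 1
  let ℓ : (Fin d → L) →ₗ[L] (ι → L) := M ∘ₗ (S.Bw j t) ∘ₗ (K.θ j)
  have hℓ : ∀ p, S.Full d l p → S.dst l p = j → M (S.Bw j t (S.Bw l p (K.θ l y))) =
      ℓ ((K.hw l p : Matrix (Fin d) (Fin d) L).mulVec y) := by
    intro p hp hpj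
    rw [K.hw_spec l p hp (by rwa [hpj]), hpj]
    rfl
  have hval : ∀ p, S.Full d l p → S.dst l p = j →
      ℓ ((K.hw l p : Matrix (Fin d) (Fin d) L).mulVec y) ≠ 0 ∧ ∀ F ∈ FF, MvPolynomial.eval
        (ℓ ((K.hw l p : Matrix (Fin d) (Fin d) L).mulVec y)) F = 0 := by
    intro p hp hpj
    rw [← hℓ p hp hpj]
    have h1 := hv (p ++ t) M (by rw [S.dst_append, hpj, hM]; rfl)
    rw [S.Bw_append, hpj] at h1
    exact h1
  rw [hℓ u hu huj, hℓ u' hu' huj']
  exact hN ℓ y (fun h F hF => K.cone_all FF l j hl hj ℓ y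
    (fun p hp hpj => (hval p hp hpj).2) h.1 h.2 F hF) _ _ hcl (hval u hu huj).1
    (hval u' hu' huj').1

end Core

end Pool.Agent.R477.WA
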