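import Pool.Agent.R477.WA.Grp

set_option autoImplicit false

/-!
# The elimination of a source component
-/

namespace Pool.Agent.R477.WA

open Module

/-- the property of groups of matrices which is used: the values on the cosets of a subgroup of
finite index have the same colour -/
def KP {L : Type} [Field L] {ι β : Type} (FF : Set (MvPolynomial ι L)) (col : (ι → L) → β) : Prop :=
  ∀ (d : ℕ) (H : Subgroup (Matrix.GeneralLinearGroup (Fin d) L)), H.FG →
    ∃ N : Subgroup H, N.Normal ∧ N.FiniteIndex ∧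
      ∀ (ℓ : (Fin d → L) →ₗ[L] (ι → L)) (y : Fin d → L),
      (∀ h : H, ∀ F ∈ FF, MvPolynomial.eval
        (ℓ (((h : Matrix.GeneralLinearGroup (Fin d) L) : Matrix (Fin d) (Fin d) L).mulVec y))
          F = 0) → ∀ g g' : H, g⁻¹ * g' ∈ N →
      ℓ (((g : Matrix.GeneralLinearGroup (Fin d) L) : Matrix (Fin d) (Fin d) L).mulVec y) ≠ 0 →
      ℓ (((g' : Matrix.GeneralLinearGroup (Fin d) L) : Matrix (Fin d) (Fin d) L).mulVec y) ≠ 0 →
      col (ℓ (((g : Matrix.GeneralLinearGroup (Fin d) L) :
        Matrix (Fin d) (Fin d) L).mulVec y)) =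
      col (ℓ (((g' : Matrix.GeneralLinearGroup (Fin d) L) :
        Matrix (Fin d) (Fin d) L).mulVec y))

/-- admissible values -/
def Ok {L : Type} [Field L] {ι : Type} (FF : Set (MvPolynomial ι L)) (y : ι → L) : Prop :=
  y ≠ 0 ∧ ∀ F ∈ FF, MvPolynomial.eval y F = 0

variable {L α V : Type} [Field L] [AddCommGroup V] [Module L V] {ι : Type}

namespace Core

variable {S : Sys L α V (ι → L)} {d : ℕ} (K : Core S d)

/-- the class of a word -/
noncomputable def cls (N : Subgroup K.H) (l : S.Q) (u : List α) : K.H ⧸ N :=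
  QuotientGroup.mk ⟨K.hw l u, K.hw_mem l u⟩

theorem cls_nil (N : Subgroup K.H) [N.Normal] (l : S.Q) : K.cls N l [] = 1 := by
  unfold cls
  have h : (⟨K.hw l [], K.hw_mem l []⟩ : K.H) = 1 := Subtype.ext (K.hw_nil l)
  rw [h]
  rfl

theorem cls_append (N : Subgroup K.H) [N.Normal] (l : S.Q) (u : List α) (a : α) :
    K.cls N l (u ++ [a]) =
      (QuotientGroup.mk (⟨K.G (S.dst l u) a, K.G_mem _ _⟩ : K.H) : K.H ⧸ N) * K.cls N l u := by
  unfold cls
  rw [← QuotientGroup.mk_mul]
  congr 1
  apply Subtype.ext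
  show K.hw l (u ++ [a]) = K.G (S.dst l u) a * K.hw l u
  rw [hw_append, hw_cons, hw_nil, one_mul]

variable (S) in
/-- the target of an entry edge -/
def tgt (q0 : S.Q) : Option (S.Q × α) → S.Q
  | none => q0
  | some p => S.δ p.1 p.2

/-- legitimate tags -/
def Cond (N : Subgroup K.H) (q0 q : S.Q) (e : Option (S.Q × α)) (c : K.H ⧸ N) : Prop :=
  q ∈ K.C ∧ tgt S q0 e ∈ K.C ∧
    ∃ u, S.Full d (tgt S q0 e) u ∧ S.dst (tgt S q0 e) u = q ∧ K.cls N (tgt S q0 e) u = c

open Classical in
/-- a word of the given class -/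
noncomputable def rep (N : Subgroup K.H) (q0 q : S.Q) (e : Option (S.Q × α)) (c : K.H ⧸ N) :
    List α :=
  if h : K.Cond N q0 q e c then h.2.2.choose else []

theorem rep_spec {N : Subgroup K.H} {q0 q : S.Q} {e : Option (S.Q × α)} {c : K.H ⧸ N}
    (h : K.Cond N q0 q e c) : S.Full d (tgt S q0 e) (K.rep N q0 q e c) ∧
      S.dst (tgt S q0 e) (K.rep N q0 q e c) = q ∧
      K.cls N (tgt S q0 e) (K.rep N q0 q e c) = c := by
  unfold rep
  rw [dif_pos h]
  exact h.2.2.choose_spec

variable (S) in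
open Classical in
/-- the subspace of the entry vectors -/
noncomputable def Ue (d : ℕ) (v : V) : Option (S.Q × α) → Submodule L V
  | none => Submodule.span L {v}
  | some p => if S.FullEdge d p.1 p.2 then ⊥ else (S.W p.1).map (S.B p.1 p.2)

theorem Ue_le (q0 : S.Q) (v : V) (hv : v ∈ S.W q0) (e : Option (S.Q × α)) :
    Ue S d v e ≤ S.W (tgt S q0 e) := by
  rcases e with _ | p
  · show Submodule.span L {v} ≤ S.W q0
    rwa [Submodule.span_singleton_le_iff_mem]
  · by_cases hF : S.FullEdge d p.1 p.2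
    · have h : Ue S d v (some p) = ⊥ := by
        simp only [Ue]
        rw [if_pos hF]
      rw [h]
      exact bot_le
    · have h : Ue S d v (some p) = (S.W p.1).map (S.B p.1 p.2) := by
        simp only [Ue]
        rw [if_neg hF]
      rw [h]
      rintro _ ⟨x, hx, rfl⟩
      exact S.hB _ _ x hx

open Classical in
/-- the new tag -/
noncomputable def ntag (N : Subgroup K.H) [N.Normal] (q : S.Q) (a : α) :
    Option (Option (S.Q × α) × (K.H ⧸ N)) → Option (Option (S.Q × α) × (K.H ⧸ N))
  | none => if S.δ q a ∈ K.C then some (some (q, a), 1) else none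
  | some (e, c) => if S.FullEdge d q a ∧ S.δ q a ∈ K.C then
      some (e, (QuotientGroup.mk (⟨K.G q a, K.G_mem _ _⟩ : K.H) : K.H ⧸ N) * c)
    else if S.δ q a ∈ K.C then some (some (q, a), 1) else none

open Classical in
/-- the new maps -/
noncomputable def nB (N : Subgroup K.H) (q0 q : S.Q) (a : α) :
    Option (Option (S.Q × α) × (K.H ⧸ N)) → (V →ₗ[L] V)
  | none => S.B q a
  | some (e, c) => if S.FullEdge d q a ∧ S.δ q a ∈ K.C then LinearMap.id
      else (S.B q a) ∘ₗ (S.Bw (tgt S q0 e) (K.rep N q0 q e c))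

open Classical in
/-- the new subspaces -/
noncomputable def nW (N : Subgroup K.H) (q0 : S.Q) (v : V) (q : S.Q) :
    Option (Option (S.Q × α) × (K.H ⧸ N)) → Submodule L V
  | none => if q ∈ K.C then ⊥ else S.W q
  | some (e, c) => if K.Cond N q0 q e c then Ue S d v e else ⊥

/-- the new output -/
noncomputable def nout (N : Subgroup K.H) (q0 q : S.Q) :
    Option (Option (S.Q × α) × (K.H ⧸ N)) → Option (V →ₗ[L] (ι → L))
  | none => S.out q
  | some (e, c) => (S.out q).map fun M => M ∘ₗ (S.Bw (tgt S q0 e) (K.rep N q0 q e c))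

/-- the vector in the old system -/
noncomputable def act (N : Subgroup K.H) (q0 q : S.Q) (x : V) :
    Option (Option (S.Q × α) × (K.H ⧸ N)) → V
  | none => x
  | some (e, c) => S.Bw (tgt S q0 e) (K.rep N q0 q e c) x

theorem cond_entry (N : Subgroup K.H) [N.Normal] (q0 q : S.Q) (a : α) (h : S.δ q a ∈ K.C) :
    K.Cond N q0 (S.δ q a) (some (q, a)) 1 :=
  ⟨h, h, [], S.full_nil d _, S.dst_nil _, K.cls_nil N _⟩

theorem mem_entry (N : Subgroup K.H) [N.Normal] (q0 : S.Q) (v : V) (q : S.Q) (a : α)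
    (h : S.δ q a ∈ K.C) (hn : ¬ S.FullEdge d q a) (z : V) (hz : z ∈ S.W q) :
    S.B q a z ∈ K.nW N q0 v (S.δ q a) (some (some (q, a), 1)) := by
  unfold nW
  simp only
  rw [if_pos (K.cond_entry N q0 q a h)]
  unfold Ue
  simp only
  rw [if_neg hn]
  exact ⟨z, hz, rfl⟩

theorem cond_inside (N : Subgroup K.H) [N.Normal] (q0 q : S.Q) (a : α)
    (e : Option (S.Q × α)) (c : K.H ⧸ N) (hc : K.Cond N q0 q e c)
    (h : S.FullEdge d q a ∧ S.δ q a ∈ K.C) : K.Cond N q0 (S.δ q a) e
      ((QuotientGroup.mk (⟨K.G q a, K.G_mem _ _⟩ : K.H) : K.H ⧸ N) * c) := by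
  obtain ⟨h1, h2, u, h3, h4, h5⟩ := hc
  refine ⟨h.2, h2, u ++ [a], (S.full_append d _ _ _).2 ⟨h3, ?_⟩, ?_, ?_⟩
  · rw [h4, S.full_single]
    exact h.1
  · rw [S.dst_append, h4, S.dst_cons, S.dst_nil]
  · rw [cls_append, h4, h5]

theorem act_mem (N : Subgroup K.H) (q0 : S.Q) (v : V) (hv : v ∈ S.W q0) (q : S.Q)
    (e : Option (S.Q × α)) (c : K.H ⧸ N) (hc : K.Cond N q0 q e c) (x : V) (hx : x ∈ Ue S d v e) :
    S.Bw (tgt S q0 e) (K.rep N q0 q e c) x ∈ S.W q := by
  have h1 := S.Bw_mem (tgt S q0 e) (K.rep N q0 q e c) x (Ue_le q0 v hv e hx)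
  rwa [(K.rep_spec hc).2.1] at h1

/-- the new system -/
noncomputable def newSys (N : Subgroup K.H) [N.Normal] (hfin : Finite (K.H ⧸ N)) [Finite α]
    (q0 : S.Q) (v : V) (hv : v ∈ S.W q0) : Sys L α V (ι → L) where
  Q := S.Q × Option (Option (S.Q × α) × (K.H ⧸ N))
  fin := by
    have := S.fin
    infer_instance
  δ := fun s a => (S.δ s.1 a, K.ntag N s.1 a s.2)
  B := fun s a => K.nB N q0 s.1 a s.2
  W := fun s => K.nW N q0 v s.1 s.2
  out := fun s => K.nout N q0 s.1 s.2
  hB := by
    rintro ⟨q, t⟩ a x hx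
    rcases t with _ | ⟨e, c⟩
    · simp only [nW] at hx
      split_ifs at hx with hq
      · rw [Submodule.mem_bot] at hx
        rw [hx, map_zero]
        exact Submodule.zero_mem _
      · simp only [ntag, nB]
        by_cases hC : S.δ q a ∈ K.C
        · rw [if_pos hC]
          exact K.mem_entry N q0 v q a hC (fun h => hq (K.hsrc q a h hC)) x hx
        · rw [if_neg hC]
          simp only [nW]
          rw [if_neg hC]
          exact S.hB q a x hx
    · simp only [nW] at hx
      split_ifs at hx with hc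
      · simp only [ntag, nB]
        by_cases hF : S.FullEdge d q a ∧ S.δ q a ∈ K.C
        · rw [if_pos hF, if_pos hF]
          simp only [nW]
          rw [if_pos (K.cond_inside N q0 q a e c hc hF)]
          exact hx
        · rw [if_neg hF, if_neg hF]
          have hm := K.act_mem N q0 v hv q e c hc x hx
          by_cases hC : S.δ q a ∈ K.C
          · rw [if_pos hC]
            exact K.mem_entry N q0 v q a hC (fun h => hF ⟨h, hC⟩) _ hm
          · rw [if_neg hC]
            simp only [nW]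
            rw [if_neg hC]
            exact S.hB q a _ hm
      · rw [Submodule.mem_bot] at hx
        rw [hx, map_zero]
        exact Submodule.zero_mem _

theorem nW_rank [FiniteDimensional L V] (hd : 2 ≤ d) (hle : ∀ q, finrank L (S.W q) ≤ d)
    (N : Subgroup K.H) (q0 : S.Q) (v : V) (q : S.Q)
    (t : Option (Option (S.Q × α) × (K.H ⧸ N))) :
    finrank L (K.nW N q0 v q t) ≤ d ∧
      (finrank L (K.nW N q0 v q t) = d → t = none ∧ q ∉ K.C ∧ finrank L (S.W q) = d) := by
  rcases t with _ | ⟨e, c⟩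
  · by_cases hq : q ∈ K.C
    · have h : K.nW N q0 v q none = ⊥ := by
        simp only [nW]
        rw [if_pos hq]
      rw [h, finrank_bot]
      exact ⟨by omega, fun h => by omega⟩
    · have h : K.nW N q0 v q none = S.W q := by
        simp only [nW]
        rw [if_neg hq]
      rw [h]
      exact ⟨hle q, fun h => ⟨rfl, hq, h⟩⟩
  · have hlt : finrank L (K.nW N q0 v q (some (e, c))) < d := by
      by_cases hc : K.Cond N q0 q e c
      · have h : K.nW N q0 v q (some (e, c)) = Ue S d v e := by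
          simp only [nW]
          rw [if_pos hc]
        rw [h]
        rcases e with _ | p
        · show finrank L (Submodule.span L {v}) < d
          have h1 := finrank_span_le_card (R := L) ({v} : Set V)
          simp only [Set.toFinset_singleton, Finset.card_singleton] at h1
          omega
        · by_cases hF : S.FullEdge d p.1 p.2
          · have h : Ue S d v (some p) = ⊥ := by
              simp only [Ue]
              rw [if_pos hF]
            rw [h, finrank_bot]
            omega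
          · have h : Ue S d v (some p) = (S.W p.1).map (S.B p.1 p.2) := by
              simp only [Ue]
              rw [if_neg hF]
            rw [h]
            have h1 : finrank L (S.W (S.δ p.1 p.2)) = d := K.hrank _ hc.2.1
            have h2 : (S.W p.1).map (S.B p.1 p.2) ≤ S.W (S.δ p.1 p.2) := by
              rintro _ ⟨x, hx, rfl⟩
              exact S.hB _ _ x hx
            have h3 := Submodule.finrank_mono h2
            have h4 := Submodule.finrank_map_le (S.B p.1 p.2) (S.W p.1)
            by_contra hge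
            apply hF
            have h5 := hle p.1
            refine ⟨by omega, h1, Submodule.eq_of_le_of_finrank_eq h2 (by omega)⟩
      · have h : K.nW N q0 v q (some (e, c)) = ⊥ := by
          simp only [nW]
          rw [if_neg hc]
        rw [h, finrank_bot]
        omega
    exact ⟨hlt.le, fun h => by omega⟩

/-- good positions of the new system -/
def Good (FF : Set (MvPolynomial ι L)) (N : Subgroup K.H) (q0 : S.Q) (v : V) (q : S.Q)
    (x : V) : Option (Option (S.Q × α) × (K.H ⧸ N)) → Prop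
  | none => x ∈ K.nW N q0 v q none ∧ q ∉ K.C
  | some (e, c) => x ∈ K.nW N q0 v q (some (e, c)) ∧ K.Cond N q0 q e c ∧
      S.Valid (Ok FF) (tgt S q0 e) x

section Step

variable {β : Type} (col : (ι → L) → β) (FF : Set (MvPolynomial ι L)) (N : Subgroup K.H)
  [N.Normal]
  (hN : ∀ (ℓ : (Fin d → L) →ₗ[L] (ι → L)) (y : Fin d → L),
      (∀ h : K.H, ∀ F ∈ FF, MvPolynomial.eval
        (ℓ (((h : Matrix.GeneralLinearGroup (Fin d) L) : Matrix (Fin d) (Fin d) L).mulVec y))
          F = 0) → ∀ g g' : K.H, g⁻¹ * g' ∈ N →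
      ℓ (((g : Matrix.GeneralLinearGroup (Fin d) L) : Matrix (Fin d) (Fin d) L).mulVec y) ≠ 0 →
      ℓ (((g' : Matrix.GeneralLinearGroup (Fin d) L) : Matrix (Fin d) (Fin d) L).mulVec y) ≠ 0 →
      col (ℓ (((g : Matrix.GeneralLinearGroup (Fin d) L) :
        Matrix (Fin d) (Fin d) L).mulVec y)) =
      col (ℓ (((g' : Matrix.GeneralLinearGroup (Fin d) L) :
        Matrix (Fin d) (Fin d) L).mulVec y)))

include hN

omit [N.Normal] in
theorem beh_cls (l j : S.Q) (hl : l ∈ K.C) (hj : j ∈ K.C) (u u' : List α) (hu : S.Full d l u)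
    (hu' : S.Full d l u') (huj : S.dst l u = j) (huj' : S.dst l u' = j)
    (hcl : K.cls N l u = K.cls N l u') (x : V) (hx : x ∈ S.W l) (hv : S.Valid (Ok FF) l x) :
    S.beh col j (S.Bw l u x) = S.beh col j (S.Bw l u' x) :=
  K.same_beh col FF N hN l j hl hj u u' hu hu' huj huj' (QuotientGroup.eq.1 hcl) x hx hv

theorem good_entry (q0 : S.Q) (v : V) (q : S.Q) (a : α) (h : S.δ q a ∈ K.C)
    (hn : ¬ S.FullEdge d q a) (z : V) (hz : z ∈ S.W q) (hval : S.Valid (Ok FF) q z) :
    K.Good FF N q0 v (S.δ q a) (S.B q a z) (some (some (q, a), 1)) ∧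
    S.beh col (S.δ q a) (K.act N q0 (S.δ q a) (S.B q a z) (some (some (q, a), 1))) =
      S.beh col (S.δ q a) (S.B q a z) ∧
    S.Valid (Ok FF) (S.δ q a) (K.act N q0 (S.δ q a) (S.B q a z) (some (some (q, a), 1))) := by
  have hc := K.cond_entry N q0 q a h
  have hv1 : S.Valid (Ok FF) (S.δ q a) (S.B q a z) := Sys.Valid.step S hval a
  obtain ⟨h1, h2, h3⟩ := K.rep_spec hc
  refine ⟨⟨K.mem_entry N q0 v q a h hn z hz, hc, hv1⟩, ?_, ?_⟩
  · have h4 := K.beh_cls col FF N hN (S.δ q a) (S.δ q a) h h _ [] h1 (S.full_nil d _) h2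
      (S.dst_nil _) (h3.trans (K.cls_nil N _).symm) (S.B q a z) (S.hB q a z hz) hv1
    rw [S.Bw_nil] at h4
    exact h4
  · have h4 := Sys.Valid.word S hv1 (K.rep N q0 (S.δ q a) (some (q, a)) 1)
    have h2' : S.dst (S.δ q a) (K.rep N q0 (S.δ q a) (some (q, a)) 1) = S.δ q a := h2
    rw [h2'] at h4
    exact h4

theorem good_step (q0 : S.Q) (v : V) (hv : v ∈ S.W q0) (q : S.Q)
    (t : Option (Option (S.Q × α) × (K.H ⧸ N))) (x : V) (hg : K.Good FF N q0 v q x t)
    (hval : S.Valid (Ok FF) q (K.act N q0 q x t)) (a : α) :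
    K.Good FF N q0 v (S.δ q a) (K.nB N q0 q a t x) (K.ntag N q a t) ∧
    S.beh col (S.δ q a) (K.act N q0 (S.δ q a) (K.nB N q0 q a t x) (K.ntag N q a t)) =
      S.beh col (S.δ q a) (S.B q a (K.act N q0 q x t)) ∧
    S.Valid (Ok FF) (S.δ q a) (K.act N q0 (S.δ q a) (K.nB N q0 q a t x) (K.ntag N q a t)) := by
  rcases t with _ | ⟨e, c⟩
  · obtain ⟨hx, hq⟩ := hg
    simp only [nW] at hx
    rw [if_neg hq] at hx
    simp only [act] at hval
    by_cases hC : S.δ q a ∈ K.C
    · simp only [ntag, nB]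
      rw [if_pos hC]
      exact K.good_entry col FF N hN q0 v q a hC (fun h => hq (K.hsrc q a h hC)) x hx hval
    · simp only [ntag, nB]
      rw [if_neg hC]
      refine ⟨⟨?_, hC⟩, rfl, Sys.Valid.step S hval a⟩
      simp only [nW]
      rw [if_neg hC]
      exact S.hB q a x hx
  · obtain ⟨hx, hc, hvx⟩ := hg
    have hx0 := hx
    simp only [nW] at hx
    rw [if_pos hc] at hx
    have hxl : x ∈ S.W (tgt S q0 e) := Ue_le q0 v hv e hx
    simp only [act] at hval
    obtain ⟨h1, h2, h3⟩ := K.rep_spec hc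
    by_cases hF : S.FullEdge d q a ∧ S.δ q a ∈ K.C
    · simp only [ntag, nB]
      rw [if_pos hF, if_pos hF]
      have hc' := K.cond_inside N q0 q a e c hc hF
      obtain ⟨h4, h5, h6⟩ := K.rep_spec hc'
      refine ⟨⟨?_, hc', hvx⟩, ?_, ?_⟩
      · simp only [nW]
        rw [if_pos hc']
        exact hx
      · simp only [act]
        have h7 := K.beh_cls col FF N hN (tgt S q0 e) (S.δ q a) hc.2.1 hF.2 _
          (K.rep N q0 q e c ++ [a]) h4 ((S.full_append d _ _ _).2 ⟨h1, by
            rw [h2, S.full_single]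
            exact hF.1⟩) h5 (by rw [S.dst_append, h2, S.dst_cons, S.dst_nil]) (by
            rw [h6, cls_append, h2, h3]) x hxl hvx
        rw [LinearMap.id_apply, h7, S.Bw_append, h2, S.Bw_cons, S.Bw_nil]
      · have h7 := Sys.Valid.word S hvx (K.rep N q0 (S.δ q a) e
          ((QuotientGroup.mk (⟨K.G q a, K.G_mem _ _⟩ : K.H) : K.H ⧸ N) * c))
        rw [h5] at h7
        exact h7
    · have hm := K.act_mem N q0 v hv q e c hc x hx
      simp only [ntag, nB]
      rw [if_neg hF, if_neg hF]
      by_cases hC : S.δ q a ∈ K.C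
      · rw [if_pos hC]
        exact K.good_entry col FF N hN q0 v q a hC (fun h => hF ⟨h, hC⟩) _ hm hval
      · rw [if_neg hC]
        refine ⟨⟨?_, hC⟩, rfl, Sys.Valid.step S hval a⟩
        simp only [nW]
        rw [if_neg hC]
        exact S.hB q a _ hm

theorem newSys_beh (hfin : Finite (K.H ⧸ N)) [Finite α] (q0 : S.Q) (v : V) (hv : v ∈ S.W q0)
    (u : List α) : ∀ (q : S.Q) (t : Option (Option (S.Q × α) × (K.H ⧸ N))) (x : V),
    K.Good FF N q0 v q x t → S.Valid (Ok FF) q (K.act N q0 q x t) →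
    (K.newSys N hfin q0 v hv).beh col (q, t) x u = S.beh col q (K.act N q0 q x t) u ∧
    ∀ M ∈ (K.newSys N hfin q0 v hv).out ((K.newSys N hfin q0 v hv).dst (q, t) u),
      Ok FF (M ((K.newSys N hfin q0 v hv).Bw (q, t) u x)) := by
  induction u with
  | nil =>
    intro q t x hg hval
    constructor
    · have h1 : (K.newSys N hfin q0 v hv).beh col (q, t) x [] =
          (K.nout N q0 q t).map (fun M => col (M x)) := rfl
      have h2 : S.beh col q (K.act N q0 q x t) [] =
          (S.out q).map (fun M => col (M (K.act N q0 q x t))) := rfl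
      rw [h1, h2]
      rcases t with _ | ⟨e, c⟩
      · rfl
      · simp only [nout, act, Option.map_map]
        rfl
    · intro M hM
      change M ∈ K.nout N q0 q t at hM
      show Ok FF (M x)
      rcases t with _ | ⟨e, c⟩
      · have h1 := hval [] M (by rw [S.dst_nil]; exact hM)
        rw [S.Bw_nil] at h1
        exact h1
      · simp only [nout, Option.mem_map] at hM
        obtain ⟨M', hM', rfl⟩ := hM
        have h1 := hval [] M' (by rw [S.dst_nil]; exact hM')
        rw [S.Bw_nil] at h1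
        exact h1
  | cons a u ih =>
    intro q t x hg hval
    obtain ⟨h1, h2, h3⟩ := K.good_step col FF N hN q0 v hv q t x hg hval a
    obtain ⟨h4, h5⟩ := ih _ _ _ h1 h3
    constructor
    · refine (Sys.beh_cons (K.newSys N hfin q0 v hv) col (q, t) x a u).trans ?_
      rw [S.beh_cons, ← h2]
      exact h4
    · intro M hM
      exact h5 M hM

end Step

end Core

/-- **the induction step** -/
theorem step [FiniteDimensional L V] [Finite α] {β : Type} (col : (ι → L) → β)
    (FF : Set (MvPolynomial ι L)) (kp : KP FF col) (S : Sys L α V (ι → L)) (d : ℕ) (hd : 2 ≤ d)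
    (hle : ∀ q, finrank L (S.W q) ≤ d) (q1 : S.Q) (h1 : finrank L (S.W q1) = d)
    (q0 : S.Q) (v : V) (hv : v ∈ S.W q0) (hval : S.Valid (Ok FF) q0 v) :
    ∃ (S' : Sys L α V (ι → L)) (q0' : S'.Q), (∀ q, finrank L (S'.W q) ≤ d) ∧
      {q | finrank L (S'.W q) = d}.ncard < {q | finrank L (S.W q) = d}.ncard ∧
      v ∈ S'.W q0' ∧ S'.Valid (Ok FF) q0' v ∧ S'.beh col q0' v = S.beh col q0 v := by
  classical
  have hSfin := S.fin
  obtain ⟨K⟩ := exists_core S d q1 h1
  have hfg : K.H.FG := by
    have := Set.finite_range fun p : S.Q × α => K.G p.1 p.2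
    exact ⟨this.toFinset, by rw [Set.Finite.coe_toFinset]; rfl⟩
  obtain ⟨N, hNn, hNf, hN⟩ := kp d K.H hfg
  have hfin : Finite (K.H ⧸ N) := inferInstance
  let S' := K.newSys N hfin q0 v hv
  have hrk : ∀ s : S.Q × Option (Option (S.Q × α) × (K.H ⧸ N)), _ :=
    fun s => K.nW_rank hd hle N q0 v s.1 s.2
  have hcard : {q | finrank L (S'.W q) = d}.ncard < {q | finrank L (S.W q) = d}.ncard := by
    have hsub : {q | finrank L (S'.W q) = d} ⊆
        (fun q : S.Q => ((q, none) : S.Q × Option (Option (S.Q × α) × (K.H ⧸ N)))) ''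
          {q | finrank L (S.W q) = d ∧ q ∉ K.C} := by
      rintro ⟨q, t⟩ hq
      obtain ⟨h2, h3, h4⟩ := (hrk (q, t)).2 hq
      have h2' : t = none := h2
      subst h2'
      exact ⟨q, ⟨h4, h3⟩, rfl⟩
    have h2 := Set.ncard_le_ncard hsub
      ((Set.toFinite {q | finrank L (S.W q) = d ∧ q ∉ K.C}).image _)
    have h3 := Set.ncard_image_le (f := (fun q : S.Q =>
      ((q, none) : S.Q × Option (Option (S.Q × α) × (K.H ⧸ N)))))
      (Set.toFinite {q | finrank L (S.W q) = d ∧ q ∉ K.C})
    have h4 : {q | finrank L (S.W q) = d ∧ q ∉ K.C}.ncard < {q | finrank L (S.W q) = d}.ncard := by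
      apply Set.ncard_lt_ncard _ (Set.toFinite _)
      refine ⟨fun q hq => hq.1, fun hsub => ?_⟩
      exact (hsub (K.hrank K.b K.hb)).2 K.hb
    exact lt_of_le_of_lt (h2.trans h3) h4
  -- the initial position
  obtain ⟨t0, hg, ha, hva⟩ : ∃ t0 : Option (Option (S.Q × α) × (K.H ⧸ N)),
      K.Good FF N q0 v q0 v t0 ∧
      S.beh col q0 (K.act N q0 q0 v t0) = S.beh col q0 v ∧
      S.Valid (Ok FF) q0 (K.act N q0 q0 v t0) := by
    by_cases hC : q0 ∈ K.C
    · have hc : K.Cond N q0 q0 none 1 := ⟨hC, hC, [], S.full_nil d _, S.dst_nil _, K.cls_nil N _⟩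
      obtain ⟨h2, h3, h4⟩ := K.rep_spec hc
      refine ⟨some (none, 1), ⟨?_, hc, hval⟩, ?_, ?_⟩
      · simp only [Core.nW]
        rw [if_pos hc]
        exact Submodule.mem_span_singleton_self v
      · have h5 := K.beh_cls col FF N hN q0 q0 hC hC _ [] h2 (S.full_nil d _) h3
          (S.dst_nil _) (h4.trans (K.cls_nil N _).symm) v hv hval
        rw [S.Bw_nil] at h5
        exact h5
      · have h5 := Sys.Valid.word S hval (K.rep N q0 q0 none 1)
        have h3' : S.dst q0 (K.rep N q0 q0 none 1) = q0 := h3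
        rw [h3'] at h5
        exact h5
    · refine ⟨none, ⟨?_, hC⟩, rfl, hval⟩
      simp only [Core.nW]
      rw [if_neg hC]
      exact hv
  have hmem : v ∈ S'.W (q0, t0) := by
    show v ∈ K.nW N q0 v q0 t0
    rcases t0 with _ | ⟨e, c⟩
    · exact hg.1
    · exact hg.1
  refine ⟨S', (q0, t0), fun s => (hrk s).1, hcard, hmem, ?_, ?_⟩
  · intro u
    exact (K.newSys_beh col FF N hN hfin q0 v hv u q0 t0 v hg hva).2
  · rw [← ha]
    funext u
    exact (K.newSys_beh col FF N hN hfin q0 v hv u q0 t0 v hg hva).1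

/-- **Weighted automata with admissible values are finite automata.** -/
theorem auto_main [FiniteDimensional L V] [Finite α] {β : Type} (col : (ι → L) → β)
    (hcol : ∀ c : L, c ≠ 0 → ∀ y, col (c • y) = col y)
    (FF : Set (MvPolynomial ι L)) (kp : KP FF col) (d : ℕ) :
    ∀ (n : ℕ) (S : Sys L α V (ι → L)) (q0 : S.Q) (v : V), (∀ q, finrank L (S.W q) ≤ d) →
      {q | finrank L (S.W q) = d}.ncard ≤ n → v ∈ S.W q0 → S.Valid (Ok FF) q0 v →
      Auto (S.beh col q0 v) := by
  induction d with
  | zero =>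
    intro n S q0 v hle _ hv _
    exact S.base col hcol (fun q => (hle q).trans zero_le_one) q0 v hv
  | succ d ihd =>
    rcases d with _ | d
    · intro n S q0 v hle _ hv _
      exact S.base col hcol hle q0 v hv
    intro n
    induction n with
    | zero =>
      intro S q0 v hle hn hv hval
      have := S.fin
      refine ihd _ S q0 v (fun q => ?_) le_rfl hv hval
      have h1 := hle q
      by_contra hlt
      have h2 : finrank L (S.W q) = d + 1 + 1 := by omega
      have h3 : 0 < {q | finrank L (S.W q) = d + 1 + 1}.ncard :=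
        (Set.ncard_pos (Set.toFinite _)).2 ⟨q, h2⟩
      omega
    | succ n ihn =>
      intro S q0 v hle hn hv hval
      have := S.fin
      by_cases hex : ∃ q1, finrank L (S.W q1) = d + 1 + 1
      · obtain ⟨q1, h1⟩ := hex
        obtain ⟨S', q0', h2, h3, h4, h5, h6⟩ := step col FF kp S (d + 1 + 1) (by omega) hle q1 h1
          q0 v hv hval
        rw [← h6]
        exact ihn S' q0' v h2 (by omega) h4 h5
      · push Not at hex
        refine ihd _ S q0 v (fun q => ?_) le_rfl hv hval
        have h1 := hle q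
        have h2 := hex q
        omega

end Pool.Agent.R477.WA
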