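import Pool.Agent.Y377.AO.Proj
import Pool.Agent.R477.WA.Step

set_option autoImplicit false

/-!
# Groups of matrices and varieties without rational curves
-/

namespace Pool.Agent.R477.WA

open MvPolynomial Pool.Agent.TH717.GO Pool.Agent.Y719.SU Pool.Agent.Y377.AO
open Pool.Agent.H533R3.SL

variable {K : Type} [Field K] {N : ℕ}

/-- the subgroup generated by the neat elements has finite index -/
theorem NN_fin {L : Type} [Field L] [CharZero L] {r : ℕ} {H : Type} [Group H] (hH : Group.FG H)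
    (ρ : H →* Matrix.GeneralLinearGroup (Fin r) L) : (NN ρ).index ≠ 0 := by
  obtain ⟨S, hS⟩ := fg_subring hH ρ
  obtain ⟨N, hN, hp⟩ := exists_residue_closure S
  obtain ⟨p₁, hp₁N, hp₁⟩ := Nat.exists_infinite_primes (N + 1)
  obtain ⟨p₂, hp₂N, hp₂⟩ := Nat.exists_infinite_primes (p₁ + 1)
  have hnd : ∀ p, N + 1 ≤ p → ¬ p ∣ N := fun p hp h => by
    have := Nat.le_of_dvd (Nat.pos_of_ne_zero hN) h
    omega
  obtain ⟨F₁, i1, f1, hc1, ⟨φ₁⟩⟩ := hp p₁ hp₁ (hnd p₁ hp₁N)
  obtain ⟨F₂, i2, f2, hc2, ⟨φ₂⟩⟩ := hp p₂ hp₂ (hnd p₂ (by omega))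
  have h0 := NN_index_two (Subring.closure (S : Set L)) φ₁ φ₂ (by
    rw [hc1, hc2]
    omega) (toSub _ ρ hS)
  rwa [ext_toSub] at h0

/-- the forms of the ideal over the larger field -/
def FFL (L : Type) [Field L] [Algebra K L] (I : Ideal (MvPolynomial (Fin (N + 1)) K)) :
    Set (MvPolynomial (Fin (N + 1)) L) :=
  {F | ∃ G ∈ I, (∃ d, G.IsHomogeneous d) ∧ F = MvPolynomial.map (algebraMap K L) G}

theorem ffl_iff (L : Type) [Field L] [Algebra K L] (I : Ideal (MvPolynomial (Fin (N + 1)) K))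
    (y : Fin (N + 1) → L) :
    (∀ F ∈ FFL L I, MvPolynomial.eval y F = 0) ↔ OnI (algebraMap K L) I y := by
  constructor
  · intro h G hG hGh
    have h1 := h _ ⟨G, hG, hGh, rfl⟩
    rwa [MvPolynomial.eval_map] at h1
  · rintro h _ ⟨G, hG, hGh, rfl⟩
    rw [MvPolynomial.eval_map]
    exact h G hG hGh

open Classical in
/-- the point with the given homogeneous coordinates, if it is not in `Z` -/
noncomputable def colZ (L : Type) [Field L] [Algebra K L]
    (I' : Ideal (MvPolynomial (Fin (N + 1)) K)) (y : Fin (N + 1) → L) :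
    Option (Submodule L (Fin (N + 1) → L)) :=
  if OnI (algebraMap K L) I' y then none else some (Submodule.span L {y})

theorem onI_smul_iff {L : Type} [Field L] [Algebra K L] [NumberField K]
    (I' : Ideal (MvPolynomial (Fin (N + 1)) K)) (c : L) (hc : c ≠ 0) (y : Fin (N + 1) → L) :
    OnI (algebraMap K L) I' (c • y) ↔ OnI (algebraMap K L) I' y := by
  constructor
  · intro h
    have h1 := onI_smul h c⁻¹
    have h2 : (fun j => c⁻¹ * (c • y) j) = y := by
      funext j
      rw [Pi.smul_apply, smul_eq_mul, inv_mul_cancel_left₀ hc]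
    rwa [h2] at h1
  · intro h
    exact onI_smul h c

theorem colZ_smul {L : Type} [Field L] [Algebra K L] [NumberField K]
    (I' : Ideal (MvPolynomial (Fin (N + 1)) K)) (c : L) (hc : c ≠ 0) (y : Fin (N + 1) → L) :
    colZ L I' (c • y) = colZ L I' y := by
  classical
  unfold colZ
  have h1 : Submodule.span L {c • y} = Submodule.span L {y} :=
    Submodule.span_singleton_smul_eq (IsUnit.mk0 c hc) y
  rw [h1]
  exact if_congr (onI_smul_iff I' c hc y) rfl rfl

/-- proportional vectors -/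
theorem exists_prop {L : Type} [Field L] (A A' : Fin (N + 1) → L) (hA : A ≠ 0) (hA' : A' ≠ 0)
    (h : ∀ i i', A' i * A i' = A' i' * A i) : ∃ c : L, c ≠ 0 ∧ A' = c • A := by
  obtain ⟨i0, hi0⟩ : ∃ i, A i ≠ 0 := by
    by_contra hcon
    push Not at hcon
    exact hA (funext hcon)
  have h1 : A' = (A' i0 / A i0) • A := by
    funext i
    rw [Pi.smul_apply, smul_eq_mul, div_mul_eq_mul_div, eq_div_iff hi0]
    exact h i i0
  refine ⟨A' i0 / A i0, ?_, h1⟩
  intro h0
  rw [h0, zero_smul] at h1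
  exact hA' h1

theorem kp_of_noRat [NumberField K] {I I' : Ideal (MvPolynomial (Fin (N + 1)) K)}
    (h : NoRatNF I I') (L : Type) [Field L] [Algebra K L] : KP (FFL L I) (colZ L I') := by
  classical
  have hL0 : CharZero L := charZero_of_injective_algebraMap (algebraMap K L).injective
  intro d H hH
  let ρ : H →* Matrix.GeneralLinearGroup (Fin d) L := H.subtype
  have hfg : Group.FG H := Group.fg_iff_subgroup_fg H |>.2 hH
  refine ⟨NN ρ, inferInstance, ⟨NN_fin hfg ρ⟩, ?_⟩
  intro ℓ y hX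
  have horb : ∀ g : H, orb (LinearMap.toMatrix' ℓ) ρ y g =
      ℓ (((g : Matrix.GeneralLinearGroup (Fin d) L) : Matrix (Fin d) (Fin d) L).mulVec y) := by
    intro g
    unfold orb
    rw [LinearMap.toMatrix'_mulVec]
    rfl
  have hX' : ∀ g, OnI (algebraMap K L) I (orb (LinearMap.toMatrix' ℓ) ρ y g) := by
    intro g
    rw [horb, ← ffl_iff]
    exact hX g
  have key : ∀ g g' : H, g⁻¹ * g' ∈ NN ρ →
      ℓ (((g : Matrix.GeneralLinearGroup (Fin d) L) : Matrix (Fin d) (Fin d) L).mulVec y) ≠ 0 →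
      ℓ (((g' : Matrix.GeneralLinearGroup (Fin d) L) : Matrix (Fin d) (Fin d) L).mulVec y) ≠ 0 →
      ¬ OnI (algebraMap K L) I' (ℓ (((g : Matrix.GeneralLinearGroup (Fin d) L) :
        Matrix (Fin d) (Fin d) L).mulVec y)) →
      ∃ c : L, c ≠ 0 ∧ ℓ (((g' : Matrix.GeneralLinearGroup (Fin d) L) :
        Matrix (Fin d) (Fin d) L).mulVec y) = c • ℓ (((g : Matrix.GeneralLinearGroup (Fin d) L) :
        Matrix (Fin d) (Fin d) L).mulVec y) := by
    intro g g' hgg h1 h2 h3
    refine exists_prop _ _ h1 h2 fun i i' => ?_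
    have h4 := const_off h (LinearMap.toMatrix' ℓ) ρ y hX' (g⁻¹ * g') hgg g (by
      rwa [horb]) i i'
    rwa [mul_inv_cancel_left, horb, horb] at h4
  intro g g' hgg h1 h2
  by_cases h3 : OnI (algebraMap K L) I' (ℓ (((g : Matrix.GeneralLinearGroup (Fin d) L) :
        Matrix (Fin d) (Fin d) L).mulVec y))
  · by_cases h4 : OnI (algebraMap K L) I' (ℓ (((g' : Matrix.GeneralLinearGroup (Fin d) L) :
        Matrix (Fin d) (Fin d) L).mulVec y))
    · unfold colZ
      rw [if_pos h3, if_pos h4]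
    · obtain ⟨c, hc, h5⟩ := key g' g (by
        have h6 : g'⁻¹ * g = (g⁻¹ * g')⁻¹ := by group
        rw [h6]
        exact Subgroup.inv_mem _ hgg) h2 h1 h4
      rw [h5, colZ_smul I' c hc]
  · obtain ⟨c, hc, h5⟩ := key g g' hgg h1 h2 h3
    rw [h5, colZ_smul I' c hc]

end Pool.Agent.R477.WA
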