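import Pool.Agent.R477.WA.Fin

set_option autoImplicit false

/-!
# Regular sequences of points
-/

namespace Pool.Agent.R477.WA

open MvPolynomial Pool.Agent.Y719.SU
open scoped LinearAlgebra.Projectivization

variable {K : Type} [Field K] {N : ℕ}

/-- A `k`-regular sequence of vectors: `y n = M A_{d_0} ⋯ A_{d_l} v`, where `d_l ⋯ d_0` is the
expansion of `n` in base `k`. -/
def KRegular {L : Type} [Field L] (k : ℕ) (y : ℕ → Fin (N + 1) → L) : Prop :=
  ∃ (r : ℕ) (A : ℕ → Matrix (Fin r) (Fin r) L) (M : Matrix (Fin (N + 1)) (Fin r) L)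
    (v : Fin r → L), ∀ n, y n = M.mulVec (vec A v (Nat.digits k n).reverse)

/-- A `k`-automatic set of natural numbers: the expansions in base `k` of its elements form a
regular language. -/
def KAutomatic (k : ℕ) (s : Set ℕ) : Prop :=
  Language.IsRegular ({w | ∃ n ∈ s, w.map Fin.val = (Nat.digits k n).reverse} :
    Language (Fin k))

/-- For all fields `L ⊇ K` and all `k`-regular sequences of points of `X(L)`, only finitely many
points are outside of `Z`, each of them is attained on a `k`-automatic set, and the indices of the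
points in `Z` form a `k`-automatic set. -/
def RegularAutomatic (k : ℕ) (I I' : Ideal (MvPolynomial (Fin (N + 1)) K)) : Prop :=
  ∀ (L : Type) [Field L] [Algebra K L] (y : ℕ → Fin (N + 1) → L)
    (P : ℕ → ℙ L (Fin (N + 1) → L)), KRegular k y →
    (∀ n, P n ∈ Pts L I ∧ ∃ h : y n ≠ 0, P n = Projectivization.mk L (y n) h) →
    (Set.range P \ Pts L I').Finite ∧ (∀ Q, Q ∉ Pts L I' → KAutomatic k {n | P n = Q}) ∧
      KAutomatic k {n | P n ∈ Pts L I'}

/-- For all number fields `L ⊇ K` only finitely many of the points of a `k`-regular sequence of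
points of `X(L)` are outside of `Z`. -/
def RegularFinite (k : ℕ) (I I' : Ideal (MvPolynomial (Fin (N + 1)) K)) : Prop :=
  ∀ (L : Type) [Field L] [NumberField L] [Algebra K L] (y : ℕ → Fin (N + 1) → L)
    (P : ℕ → ℙ L (Fin (N + 1) → L)), KRegular k y →
    (∀ n, P n ∈ Pts L I ∧ ∃ h : y n ≠ 0, P n = Projectivization.mk L (y n) h) →
    (Set.range P \ Pts L I').Finite

/-- the automaton for the words without leading zeros -/
def lead (k : ℕ) : DFA (Fin k) (Fin 3) where
  step := fun s a => if s = 0 then (if a.val = 0 then 2 else 1) else s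
  start := 0
  accept := {0, 1}

theorem lead_ne (k : ℕ) (s : Fin 3) (hs : s ≠ 0) (w : List (Fin k)) :
    (lead k).evalFrom s w = s := by
  induction w with
  | nil => rfl
  | cons a w ih =>
    show (lead k).evalFrom ((lead k).step s a) w = s
    have h : (lead k).step s a = s := if_neg hs
    rw [h, ih]

/-- words without leading zeros are the expansions of the natural numbers -/
theorem lead_iff (k : ℕ) (hk : 2 ≤ k) (w : List (Fin k)) :
    w ∈ (lead k).accepts ↔ ∃ n, w.map Fin.val = (Nat.digits k n).reverse := by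
  rcases w with _ | ⟨a, w⟩
  · refine iff_of_true ?_ ⟨0, by simp⟩
    show (0 : Fin 3) ∈ ({0, 1} : Set (Fin 3))
    simp
  · have h1 : (a :: w) ∈ (lead k).accepts ↔ a.val ≠ 0 := by
      show (lead k).evalFrom ((lead k).step 0 a) w ∈ ({0, 1} : Set (Fin 3)) ↔ _
      by_cases ha : a.val = 0
      · have h2 : (lead k).step 0 a = 2 := by
          show (if (0 : Fin 3) = 0 then (if a.val = 0 then 2 else 1) else 0) = (2 : Fin 3)
          rw [if_pos rfl, if_pos ha]
        rw [h2, lead_ne k 2 (by decide)]
        refine iff_of_false (by decide) (fun h => h ha)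
      · have h2 : (lead k).step 0 a = 1 := by
          show (if (0 : Fin 3) = 0 then (if a.val = 0 then 2 else 1) else 0) = (1 : Fin 3)
          rw [if_pos rfl, if_neg ha]
        rw [h2, lead_ne k 1 (by decide)]
        exact iff_of_true (by simp) ha
    rw [h1]
    constructor
    · intro ha
      refine ⟨Nat.ofDigits k ((a :: w).map Fin.val).reverse, ?_⟩
      rw [Nat.digits_ofDigits k (by omega), List.reverse_reverse]
      · intro l hl
        rw [List.mem_reverse, List.mem_map] at hl
        obtain ⟨b, _, rfl⟩ := hl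
        exact b.2
      · intro hne
        rw [List.getLast_reverse]
        simpa using ha
    · rintro ⟨n, hn⟩ ha
      rcases Nat.eq_zero_or_pos n with h0 | h0
      · subst h0
        simp at hn
      · have h2 := Nat.getLast_digit_ne_zero k (m := n) (by omega)
        apply h2
        have h3 : (Nat.digits k n) = ((a :: w).map Fin.val).reverse := by
          rw [hn, List.reverse_reverse]
        have h4 : ((a :: w).map Fin.val).reverse ≠ [] := by simp
        have h5 : (Nat.digits k n).getLast (Nat.digits_ne_nil_iff_ne_zero.2 (by omega)) =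
            (((a :: w).map Fin.val).reverse).getLast h4 := by
          congr 1
        rw [h5, List.getLast_reverse]
        simpa using ha

/-- the number with the given expansion -/
def num (k : ℕ) (w : List (Fin k)) : ℕ := Nat.ofDigits k (w.map Fin.val).reverse

theorem num_spec (k : ℕ) (w : List (Fin k)) (n : ℕ)
    (h : w.map Fin.val = (Nat.digits k n).reverse) : num k w = n := by
  unfold num
  rw [h, List.reverse_reverse, Nat.ofDigits_digits]

theorem exists_word (k : ℕ) (hk : 2 ≤ k) (n : ℕ) :
    ∃ w : List (Fin k), w.map Fin.val = (Nat.digits k n).reverse := by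
  have h1 : ∀ l : List ℕ, (∀ x ∈ l, x < k) → ∃ w : List (Fin k), w.map Fin.val = l := by
    intro l hl
    induction l with
    | nil => exact ⟨[], rfl⟩
    | cons a l ih =>
      obtain ⟨w, hw⟩ := ih fun x hx => hl x (List.mem_cons_of_mem _ hx)
      exact ⟨⟨a, hl a List.mem_cons_self⟩ :: w, by simp [hw]⟩
  apply h1
  intro x hx
  rw [List.mem_reverse] at hx
  exact Nat.digits_lt_base (by omega) hx

theorem vec_map {L : Type} [Field L] {r k : ℕ} (A : ℕ → Matrix (Fin r) (Fin r) L)
    (v : Fin r → L) (w : List (Fin k)) :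
    vec (fun a : Fin k => A a.val) v w = vec A v (w.map Fin.val) := by
  unfold vec
  rw [List.foldl_map]

theorem automatic_of_weighted {I I' : Ideal (MvPolynomial (Fin (N + 1)) K)}
    (h : WeightedAutomata I I') (k : ℕ) (hk : 2 ≤ k) : RegularAutomatic k I I' := by
  intro L _ _ y P hy hP
  obtain ⟨r, A, M, v, hyr⟩ := hy
  obtain ⟨h1, h2, h3⟩ := h L (Fin k) (lead k).accepts ⟨Fin 3, inferInstance, lead k, rfl⟩ r
    (fun a => A a.val) M v (fun w => P (num k w)) (by
    intro w hw
    rw [lead_iff k hk] at hw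
    obtain ⟨n, hn⟩ := hw
    have h4 : M.mulVec (vec (fun a : Fin k => A a.val) v w) = y n := by
      rw [vec_map, hn, hyr]
    show P (num k w) ∈ _ ∧ _
    rw [num_spec k w n hn]
    simp only [h4]
    exact hP n)
  refine ⟨?_, ?_, ?_⟩
  · refine h1.subset ?_
    rintro _ ⟨⟨n, rfl⟩, hn⟩
    obtain ⟨w, hw⟩ := exists_word k hk n
    refine ⟨⟨w, (lead_iff k hk w).2 ⟨n, hw⟩, ?_⟩, hn⟩
    show P (num k w) = P n
    rw [num_spec k w n hw]
  · intro Q hQ
    have h4 := h2 Q hQ
    have h5 : ({w | w ∈ (lead k).accepts ∧ P (num k w) = Q} : Language (Fin k)) =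
        ({w | ∃ n ∈ {n | P n = Q}, w.map Fin.val = (Nat.digits k n).reverse} :
          Language (Fin k)) := by
      ext w
      show (w ∈ (lead k).accepts ∧ P (num k w) = Q) ↔
        ∃ n ∈ {n | P n = Q}, w.map Fin.val = (Nat.digits k n).reverse
      rw [lead_iff k hk]
      constructor
      · rintro ⟨⟨n, hn⟩, hQ⟩
        rw [num_spec k w n hn] at hQ
        exact ⟨n, hQ, hn⟩
      · rintro ⟨n, hn1, hn2⟩
        refine ⟨⟨n, hn2⟩, ?_⟩
        rw [num_spec k w n hn2]
        exact hn1
    unfold KAutomatic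
    rw [← h5]
    exact h4
  · have h5 : ({w | w ∈ (lead k).accepts ∧ P (num k w) ∈ Pts L I'} : Language (Fin k)) =
        ({w | ∃ n ∈ {n | P n ∈ Pts L I'}, w.map Fin.val = (Nat.digits k n).reverse} :
          Language (Fin k)) := by
      ext w
      show (w ∈ (lead k).accepts ∧ P (num k w) ∈ Pts L I') ↔
        ∃ n ∈ {n | P n ∈ Pts L I'}, w.map Fin.val = (Nat.digits k n).reverse
      rw [lead_iff k hk]
      constructor
      · rintro ⟨⟨n, hn⟩, hQ⟩
        rw [num_spec k w n hn] at hQ
        exact ⟨n, hQ, hn⟩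
      · rintro ⟨n, hn1, hn2⟩
        refine ⟨⟨n, hn2⟩, ?_⟩
        rw [num_spec k w n hn2]
        exact hn1
    unfold KAutomatic
    rw [← h5]
    exact h3

/-! ### The converse -/

/-- the matrix of the substitution `x ↦ k x + e` on the powers of `x` -/
noncomputable def sub {L : Type} [Field L] (m : ℕ) (k e : L) : Matrix (Fin m) (Fin m) L :=
  fun i j => ((Polynomial.C k * Polynomial.X + Polynomial.C e) ^ i.val).coeff j.val

theorem sub_mulVec {L : Type} [Field L] (m : ℕ) (k e x : L) :
    (sub m k e).mulVec (fun j => x ^ j.val) = fun i => (k * x + e) ^ i.val := by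
  funext i
  have hdeg : ((Polynomial.C k * Polynomial.X + Polynomial.C e) ^ i.val).natDegree < m := by
    have h1 : (Polynomial.C k * Polynomial.X + Polynomial.C e).natDegree ≤ 1 :=
      Polynomial.natDegree_linear_le
    have h2 := Polynomial.natDegree_pow_le_of_le i.val h1
    have h3 := i.2
    omega
  have h1 := Polynomial.eval_eq_sum_range' hdeg x
  rw [Polynomial.eval_pow, Polynomial.eval_add, Polynomial.eval_mul, Polynomial.eval_C,
    Polynomial.eval_X, Polynomial.eval_C] at h1
  rw [h1, Finset.sum_range]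
  rfl

theorem vec_powers {L : Type} [Field L] (m k n0 : ℕ) (hk : 2 ≤ k) (n : ℕ) :
    vec (fun a : ℕ => sub m (k : L) ((a : L) + n0 - k * n0)) (fun j : Fin m => (n0 : L) ^ j.val)
      (Nat.digits k n).reverse = fun j => ((n + n0 : ℕ) : L) ^ j.val := by
  induction n using Nat.strong_induction_on with
  | _ n ih =>
    rcases Nat.eq_zero_or_pos n with h0 | h0
    · subst h0
      rw [Nat.digits_zero, zero_add]
      rfl
    · rw [Nat.digits_def' (by omega) h0, List.reverse_cons]
      unfold vec at ih ⊢
      rw [List.foldl_append, ih (n / k) (Nat.div_lt_self h0 (by omega))]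
      show (sub m (k : L) (((n % k : ℕ) : L) + n0 - k * n0)).mulVec _ = _
      rw [sub_mulVec]
      funext i
      congr 1
      have h1 : (n : L) = (k : L) * ((n / k : ℕ) : L) + ((n % k : ℕ) : L) := by
        rw [← Nat.cast_mul, ← Nat.cast_add, Nat.div_add_mod]
      rw [Nat.cast_add, Nat.cast_add, h1]
      ring

/-- the values of polynomials form a regular sequence -/
theorem regular_poly {L : Type} [Field L] (k n0 : ℕ) (hk : 2 ≤ k)
    (p : Fin (N + 1) → Polynomial L) :
    KRegular k (fun n j => (p j).eval ((n + n0 : ℕ) : L)) := by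
  let m := (Finset.univ.sup fun j => (p j).natDegree) + 1
  refine ⟨m, fun a => sub m (k : L) ((a : L) + n0 - k * n0), fun j i => (p j).coeff i.val,
    fun j : Fin m => (n0 : L) ^ j.val, fun n => ?_⟩
  rw [vec_powers m k n0 hk n]
  funext j
  have hdeg : (p j).natDegree < m := by
    have := Finset.le_sup (f := fun j => (p j).natDegree) (Finset.mem_univ j)
    show _ < _ + 1
    omega
  show (p j).eval ((n + n0 : ℕ) : L) = _
  rw [Polynomial.eval_eq_sum_range' hdeg, Finset.sum_range]
  rfl

theorem noRat_of_regular [NumberField K] {I I' : Ideal (MvPolynomial (Fin (N + 1)) K)} (k : ℕ)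
    (hk : 2 ≤ k) (h : RegularFinite k I I') : NoRatNF I I' := by
  classical
  intro L _ _ _ p hp
  obtain ⟨h1, ⟨G', hG', hGh, hne⟩, hnc⟩ := hp
  obtain ⟨j1, j2, i1, i2, hnc⟩ := hnc
  -- a common zero
  obtain ⟨j0, hj0⟩ : ∃ j, p j ≠ 0 := by
    by_contra hcon
    push Not at hcon
    apply hnc
    rw [hcon, hcon, Polynomial.coeff_zero, Polynomial.coeff_zero]
  have hfinz : ∀ q : Polynomial L, q ≠ 0 → {n : ℕ | q.eval (n : L) = 0}.Finite := by
    intro q hq
    have h2 : {x : L | q.eval x = 0}.Finite := by
      refine (q.roots.toFinset.finite_toSet).subset fun x hx => ?_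
      rw [Finset.mem_coe, Multiset.mem_toFinset, Polynomial.mem_roots hq]
      exact hx
    exact h2.preimage (Nat.cast_injective.injOn)
  obtain ⟨n0, hn0⟩ : ∃ n0 : ℕ, ∀ n ≥ n0, (p j0).eval (n : L) ≠ 0 := by
    obtain ⟨B, hB⟩ := (hfinz _ hj0).bddAbove
    refine ⟨B + 1, fun n hn h0 => ?_⟩
    have := hB h0
    omega
  have hy0 : ∀ n : ℕ, (fun j => (p j).eval ((n + n0 : ℕ) : L)) ≠ 0 := by
    intro n h0
    exact hn0 (n + n0) (by omega) (congrFun h0 j0)
  have hfin := h L _ (fun n => Projectivization.mk L _ (hy0 n)) (regular_poly k n0 hk p) (by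
    intro n
    refine ⟨?_, hy0 n, rfl⟩
    rw [mem_pts]
    intro G hG hGh
    rw [← Pool.Agent.TH143.HE.eval₂_eval, h1 G hG hGh, Polynomial.eval_zero])
  -- infinitely many indices outside of `Z`
  let g := eval₂ (Polynomial.C.comp (algebraMap K L)) p G'
  have hinf : {n : ℕ | g.eval ((n + n0 : ℕ) : L) ≠ 0}.Infinite := by
    have h2 : {n : ℕ | g.eval ((n + n0 : ℕ) : L) = 0}.Finite := by
      have h3 := (hfinz g hne).preimage (f := fun n : ℕ => n + n0)
        (fun a _ b _ hab => by simpa using hab)
      exact h3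
    have h3 := h2.infinite_compl
    exact h3
  have hmaps : Set.MapsTo (fun n => Projectivization.mk L _ (hy0 n))
      {n : ℕ | g.eval ((n + n0 : ℕ) : L) ≠ 0}
      (Set.range (fun n => Projectivization.mk L _ (hy0 n)) \ Pts L I') := by
    intro n hn
    refine ⟨⟨n, rfl⟩, fun h2 => hn ?_⟩
    rw [mem_pts] at h2
    show (eval₂ (Polynomial.C.comp (algebraMap K L)) p G').eval _ = 0
    rw [Pool.Agent.TH143.HE.eval₂_eval]
    exact h2 G' hG' hGh
  -- the fibres are finite
  have hfib : ∀ Q : ℙ L (Fin (N + 1) → L), {n : ℕ | Projectivization.mk L _ (hy0 n) = Q}.Finite := by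
    intro Q
    by_contra hQ
    have hQ : {n : ℕ | Projectivization.mk L _ (hy0 n) = Q}.Infinite := hQ
    have hid : ∀ j l, p j * Polynomial.C (Q.rep l) = p l * Polynomial.C (Q.rep j) := by
      intro j l
      by_contra hd
      have h2 : p j * Polynomial.C (Q.rep l) - p l * Polynomial.C (Q.rep j) ≠ 0 :=
        sub_ne_zero.2 hd
      have h3 := (hfinz _ h2).preimage (f := fun n : ℕ => n + n0)
        (fun a _ b _ hab => by simpa using hab)
      apply hQ
      refine h3.subset fun n hn => ?_
      have hn' : Projectivization.mk L _ (hy0 n) = Q := hn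
      obtain ⟨c, hc⟩ := Projectivization.exists_smul_eq_mk_rep L _ (hy0 n)
      rw [hn'] at hc
      show (p j * Polynomial.C (Q.rep l) - p l * Polynomial.C (Q.rep j)).eval
        ((n + n0 : ℕ) : L) = 0
      rw [← hc]
      simp only [Polynomial.eval_sub, Polynomial.eval_mul, Polynomial.eval_C, Pi.smul_apply,
        Units.smul_def, smul_eq_mul]
      ring
    obtain ⟨l, hl⟩ : ∃ l, Q.rep l ≠ 0 := by
      by_contra hcon
      push Not at hcon
      exact Q.rep_nonzero (funext hcon)
    have hco : ∀ j i, (p j).coeff i = (p l).coeff i * (Q.rep j / Q.rep l) := by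
      intro j i
      have h2 := congrArg (fun q => Polynomial.coeff q i) (hid j l)
      simp only [Polynomial.coeff_mul_C] at h2
      rw [mul_div_assoc', eq_div_iff hl]
      exact h2
    apply hnc
    rw [hco j1 i1, hco j2 i2, hco j2 i1, hco j1 i2]
    ring
  apply hinf
  refine (hfin.biUnion (t := fun Q => {n : ℕ | Projectivization.mk L _ (hy0 n) = Q})
    (fun Q _ => hfib Q)).subset fun n hn => ?_
  exact Set.mem_biUnion (hmaps hn) rfl

end Pool.Agent.R477.WA
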